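import Pool.Agent.Lib.MP_de0dde_an.Kernel

/-!
The function spaces on the Fourier side, and convolution in the frequency variable.
-/

namespace Pool.Agent.Lib.MP_de0dde_an

open Complex Filter Topology Set Metric MeasureTheory Pool.Agent.Shared.HoloIntegral
open scoped Real

lemma integrable_exp_abs {a : ℝ} (ha : 0 < a) : Integrable fun x : ℝ => Real.exp (-(a * |x|)) := by
  have h1 : IntegrableOn (fun x : ℝ => Real.exp (-(a * |x|))) (Ioi 0) := by
    refine (integrableOn_exp_mul_Ioi (a := -a) (by linarith) 0).congr_fun (fun x hx => ?_)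
      measurableSet_Ioi
    have : (0 : ℝ) < x := hx
    simp [abs_of_pos this]
  have h2 : IntegrableOn (fun x : ℝ => Real.exp (-(a * |x|))) (Iic 0) := by
    refine (integrableOn_exp_mul_Iic (a := a) ha 0).congr_fun (fun x hx => ?_) measurableSet_Iic
    have : x ≤ 0 := hx
    simp [abs_of_nonpos this]
  have := h2.union h1
  rwa [Iic_union_Ioi, integrableOn_univ] at this

lemma integral_exp_abs {a : ℝ} (ha : 0 < a) : ∫ x : ℝ, Real.exp (-(a * |x|)) = 2 / a := by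
  rw [integral_comp_abs (f := fun x => Real.exp (-(a * x)))]
  have := integral_exp_mul_Ioi (a := -a) (by linarith) 0
  simp only [neg_mul] at this
  rw [this]; simp; field_simp

/-- the weight -/
noncomputable def wt (ζ : ℂ) (s : ℝ) : ℝ := Real.exp (-(√s * |ζ.re|))

lemma wt_pos (ζ : ℂ) (s : ℝ) : 0 < wt ζ s := Real.exp_pos _

lemma wt_le_one (ζ : ℂ) (s : ℝ) : wt ζ s ≤ 1 := by
  unfold wt
  rw [Real.exp_le_one_iff]
  have : 0 ≤ √s * |ζ.re| := by positivity
  linarith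

lemma wt_mono (ζ : ℂ) {s t : ℝ} (h : s ≤ t) : wt ζ t ≤ wt ζ s := by
  unfold wt
  gcongr

/-- the domain -/
def dom (S : ℝ) : Set (ℂ × ℝ) := strip 1 ×ˢ Ioo 0 S

lemma isOpen_dom (S : ℝ) : IsOpen (dom S) := (isOpen_strip 1).prod isOpen_Ioo

/-- convolution along the real line -/
noncomputable def conv (f g : ℂ → ℝ → ℂ) (ζ : ℂ) (s : ℝ) : ℂ := ∫ η : ℝ, f η s * g (ζ - η) s

/-- regularity: continuity, holomorphy, reality -/
structure Reg (S : ℝ) (f : ℂ → ℝ → ℂ) : Prop where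
  cont : ContinuousOn (fun p : ℂ × ℝ => f p.1 p.2) (dom S)
  holo : ∀ s ∈ Ioo 0 S, DifferentiableOn ℂ (fun ζ => f ζ s) (strip 1)
  symm : ∀ ξ : ℝ, ∀ s ∈ Ioo 0 S, (starRingEnd ℂ) (f ξ s) = f ((-ξ : ℝ) : ℂ) s

/-- the basic bound -/
def Bd (S : ℝ) (f : ℂ → ℝ → ℂ) (M : ℝ) : Prop :=
  ∀ ζ ∈ strip 1, ∀ s ∈ Ioo 0 S, ‖f ζ s‖ ≤ M * wt ζ s

/-- the bound for forcing terms -/
def BdF (S : ℝ) (F : ℂ → ℝ → ℂ) (A B : ℝ) : Prop :=
  ∀ ζ ∈ strip 1, ∀ s ∈ Ioo 0 S, ‖F ζ s‖ ≤ (A + B * (|ζ.re| + (√s)⁻¹)) * wt ζ s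

lemma Reg.add {S : ℝ} {f g : ℂ → ℝ → ℂ} (hf : Reg S f) (hg : Reg S g) :
    Reg S (fun ζ s => f ζ s + g ζ s) :=
  ⟨hf.cont.add hg.cont, fun s hs => (hf.holo s hs).add (hg.holo s hs),
    fun ξ s hs => by rw [map_add, hf.symm ξ s hs, hg.symm ξ s hs]⟩

lemma Reg.sub {S : ℝ} {f g : ℂ → ℝ → ℂ} (hf : Reg S f) (hg : Reg S g) :
    Reg S (fun ζ s => f ζ s - g ζ s) :=
  ⟨hf.cont.sub hg.cont, fun s hs => (hf.holo s hs).sub (hg.holo s hs),
    fun ξ s hs => by rw [map_sub, hf.symm ξ s hs, hg.symm ξ s hs]⟩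

lemma Reg.cont_line {S : ℝ} {f : ℂ → ℝ → ℂ} (hf : Reg S f) {s : ℝ} (hs : s ∈ Ioo 0 S) :
    Continuous fun η : ℝ => f η s :=
  (hf.holo s hs).continuousOn.comp_continuous Complex.continuous_ofReal
    fun x => ofReal_mem_strip one_pos x

lemma Reg.cont_line' {S : ℝ} {f : ℂ → ℝ → ℂ} (hf : Reg S f) {s : ℝ} (hs : s ∈ Ioo 0 S)
    {ζ : ℂ} (hζ : ζ ∈ strip 1) : Continuous fun η : ℝ => f (ζ - η) s :=
  (hf.holo s hs).continuousOn.comp_continuous (by fun_prop) fun x => sub_mem_strip hζ x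

lemma Reg.cont_time {S : ℝ} {f : ℂ → ℝ → ℂ} (hf : Reg S f) {ζ : ℂ} (hζ : ζ ∈ strip 1) :
    ContinuousOn (f ζ) (Ioo 0 S) :=
  hf.cont.comp (f := fun s : ℝ => (ζ, s)) (by fun_prop) fun s hs => ⟨hζ, hs⟩

lemma wt_conv_le {a : ℝ} (ha : 0 ≤ a) (ξ η : ℝ) :
    Real.exp (-(a * |η|)) * Real.exp (-(a * |ξ - η|)) ≤ Real.exp (-(a * |ξ|)) *
      (indicator (Icc (-|ξ|) |ξ|) (fun _ => (1 : ℝ)) η + Real.exp (-(a * |η - abs ξ|)) +
        Real.exp (-(a * |η + abs ξ|))) := by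
  have h0 := Real.exp_pos (-(a * |ξ|))
  have h1 := Real.exp_pos (-(a * |η - abs ξ|))
  have h2 := Real.exp_pos (-(a * |η + abs ξ|))
  have h3 : |η| - |ξ| ≤ |ξ - η| := by rw [abs_sub_comm]; exact abs_sub_abs_le_abs_sub _ _
  have h4 : |ξ| ≤ |η| + |ξ - η| := by
    have := abs_add_le η (ξ - η); simpa using this
  have h5 := abs_nonneg ξ
  rw [← Real.exp_add]
  by_cases h : η ∈ Icc (-|ξ|) |ξ|
  · rw [indicator_of_mem h]
    have : Real.exp (-(a * |η|) + -(a * |ξ - η|)) ≤ Real.exp (-(a * |ξ|)) := by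
      apply Real.exp_le_exp.mpr; nlinarith
    nlinarith
  · rw [indicator_of_notMem h, zero_add]
    rw [mem_Icc, not_and_or, not_le, not_le] at h
    rcases h with h | h
    · have e1 : |η| = -η := abs_of_neg (by linarith)
      have e2 : |η + abs ξ| = -(η + |ξ|) := abs_of_neg (by linarith)
      have : Real.exp (-(a * |η|) + -(a * |ξ - η|)) ≤
          Real.exp (-(a * |ξ|)) * Real.exp (-(a * |η + abs ξ|)) := by
        rw [← Real.exp_add]; apply Real.exp_le_exp.mpr; rw [e2]; rw [e1] at h3 ⊢; nlinarith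
      nlinarith
    · have e1 : |η| = η := abs_of_pos (by linarith)
      have e2 : |η - abs ξ| = η - |ξ| := abs_of_pos (by linarith)
      have : Real.exp (-(a * |η|) + -(a * |ξ - η|)) ≤
          Real.exp (-(a * |ξ|)) * Real.exp (-(a * |η - abs ξ|)) := by
        rw [← Real.exp_add]; apply Real.exp_le_exp.mpr; rw [e2]; rw [e1] at h3 ⊢; nlinarith
      nlinarith

lemma conv_bound {S : ℝ} {f g : ℂ → ℝ → ℂ} {M N : ℝ} (hM : 0 ≤ M) (hN : 0 ≤ N)
    (hf : Bd S f M) (hg : Bd S g N) : BdF S (conv f g) 0 (4 * M * N) := by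
  intro ζ hζ s hs
  have ha : 0 < √s := Real.sqrt_pos.mpr hs.1
  set ξ := ζ.re
  have i1 : Integrable (indicator (Icc (-|ξ|) |ξ|) (fun _ => (1 : ℝ))) :=
    (integrableOn_const (by simp)).integrable_indicator measurableSet_Icc
  have i2 : Integrable fun η : ℝ => Real.exp (-(√s * |η - abs ξ|)) :=
    (integrable_exp_abs ha).comp_sub_right _
  have i3 : Integrable fun η : ℝ => Real.exp (-(√s * |η + abs ξ|)) :=
    (integrable_exp_abs ha).comp_add_right _
  have h1 : ‖conv f g ζ s‖ ≤ ∫ η : ℝ, M * N * (Real.exp (-(√s * |ξ|)) *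
      (indicator (Icc (-|ξ|) |ξ|) (fun _ => (1 : ℝ)) η + Real.exp (-(√s * |η - abs ξ|)) +
        Real.exp (-(√s * |η + abs ξ|)))) := by
    refine norm_integral_le_of_norm_le ((((i1.add i2).add i3).const_mul _).const_mul _)
      (Eventually.of_forall fun η => ?_)
    rw [norm_mul]
    have b1 := hf η (ofReal_mem_strip one_pos η) s hs
    have b2 := hg (ζ - η) (sub_mem_strip hζ η) s hs
    have b3 := wt_conv_le ha.le ξ η
    simp only [wt, Complex.ofReal_re, Complex.sub_re] at b1 b2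
    calc _ ≤ (M * Real.exp (-(√s * |η|))) * (N * Real.exp (-(√s * |ξ - η|))) := by gcongr
      _ = M * N * (Real.exp (-(√s * |η|)) * Real.exp (-(√s * |ξ - η|))) := by ring
      _ ≤ _ := by gcongr
  have i12 : Integrable fun η : ℝ => indicator (Icc (-|ξ|) |ξ|) (fun _ => (1 : ℝ)) η +
      Real.exp (-(√s * |η - abs ξ|)) := i1.add i2
  rw [integral_const_mul, integral_const_mul, integral_add i12 i3, integral_add i1 i2,
    integral_sub_right_eq_self (fun η : ℝ => Real.exp (-(√s * |η|))),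
    integral_add_right_eq_self (fun η : ℝ => Real.exp (-(√s * |η|))), integral_exp_abs ha,
    integral_indicator measurableSet_Icc] at h1
  have h5 := abs_nonneg ξ
  have e : ∫ _ in Icc (-|ξ|) |ξ|, (1 : ℝ) = 2 * |ξ| := by
    simp [Real.volume_real_Icc_of_le (by linarith : -|ξ| ≤ |ξ|)]; ring
  rw [e] at h1
  refine h1.trans ?_
  have h6 := wt_pos ζ s
  have h7 : 0 ≤ M * N := by positivity
  have : wt ζ s = Real.exp (-(√s * |ξ|)) := rfl
  rw [← this, div_eq_mul_inv]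
  have h8 : 0 ≤ M * N * wt ζ s * |ξ| := by positivity
  nlinarith

lemma conv_dom {S : ℝ} {f g : ℂ → ℝ → ℂ} {M N : ℝ} (hM : 0 ≤ M) (hN : 0 ≤ N)
    (hf : Bd S f M) (hg : Bd S g N) {ζ : ℂ} (hζ : ζ ∈ strip 1) {s s₀ : ℝ} (hs : s ∈ Ioo 0 S)
    (hs₀ : s₀ ≤ s) (η : ℝ) :
    ‖f η s * g (ζ - η) s‖ ≤ M * N * Real.exp (-(√s₀ * |η|)) := by
  rw [norm_mul]
  have b1 := hf η (ofReal_mem_strip one_pos η) s hs
  have b2 := hg (ζ - η) (sub_mem_strip hζ η) s hs
  have b3 := wt_le_one (ζ - η) s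
  have b4 := wt_mono η hs₀
  have b5 : wt η s₀ = Real.exp (-(√s₀ * |η|)) := by simp [wt]
  have b6 := wt_pos η s
  have b7 : ‖f η s‖ ≤ M * wt η s₀ := b1.trans (by gcongr)
  have b8 : ‖g (ζ - η) s‖ ≤ N * 1 := b2.trans (by gcongr)
  calc _ ≤ (M * wt η s₀) * (N * 1) :=
        mul_le_mul b7 b8 (norm_nonneg _) ((norm_nonneg _).trans b7)
    _ = _ := by rw [b5]; ring

lemma conv_integrable {S : ℝ} {f g : ℂ → ℝ → ℂ} {M N : ℝ} (hM : 0 ≤ M) (hN : 0 ≤ N)
    (rf : Reg S f) (rg : Reg S g) (hf : Bd S f M) (hg : Bd S g N) {ζ : ℂ} (hζ : ζ ∈ strip 1)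
    {s : ℝ} (hs : s ∈ Ioo 0 S) : Integrable fun η : ℝ => f η s * g (ζ - η) s :=
  ((integrable_exp_abs (Real.sqrt_pos.mpr hs.1)).const_mul (M * N)).mono'
    ((rf.cont_line hs).mul (rg.cont_line' hs hζ)).aestronglyMeasurable
    (Eventually.of_forall fun η => conv_dom hM hN hf hg hζ hs le_rfl η)

lemma conv_reg {S : ℝ} {f g : ℂ → ℝ → ℂ} {M N : ℝ} (hM : 0 ≤ M) (hN : 0 ≤ N)
    (rf : Reg S f) (rg : Reg S g) (hf : Bd S f M) (hg : Bd S g N) : Reg S (conv f g) := by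
  refine ⟨fun p hp => ContinuousAt.continuousWithinAt ?_, fun s hs => ?_, fun ξ s hs => ?_⟩
  · have hn : ∀ᶠ q in 𝓝 p, q ∈ dom S ∧ p.2 / 2 ≤ q.2 := by
      refine Eventually.and ((isOpen_dom S).mem_nhds hp) ?_
      have : p.2 / 2 < p.2 := by linarith [hp.2.1]
      exact (continuous_snd.tendsto p).eventually (eventually_ge_nhds this)
    refine continuousAt_of_dominated (F := fun (q : ℂ × ℝ) (η : ℝ) => f η q.2 * g (q.1 - η) q.2)
      (bound := fun η => M * N * Real.exp (-(√(p.2 / 2) * |η|))) ?_ ?_ ?_ ?_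
    · filter_upwards [hn] with q hq
      exact ((rf.cont_line hq.1.2).mul (rg.cont_line' hq.1.2 hq.1.1)).aestronglyMeasurable
    · filter_upwards [hn] with q hq
      exact Eventually.of_forall fun η => conv_dom hM hN hf hg hq.1.1 hq.1.2 hq.2 η
    · exact (integrable_exp_abs (Real.sqrt_pos.mpr (by linarith [hp.2.1]))).const_mul _
    · refine Eventually.of_forall fun η => ContinuousAt.mul ?_ ?_
      · exact ContinuousAt.comp (f := fun q : ℂ × ℝ => ((η : ℂ), q.2))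
          (rf.cont.continuousAt ((isOpen_dom S).mem_nhds ⟨ofReal_mem_strip one_pos η, hp.2⟩))
          (by fun_prop)
      · exact ContinuousAt.comp (f := fun q : ℂ × ℝ => (q.1 - (η : ℂ), q.2))
          (rg.cont.continuousAt ((isOpen_dom S).mem_nhds ⟨sub_mem_strip hp.1 η, hp.2⟩))
          (by fun_prop)
  · refine differentiableOn_integral (isOpen_strip 1)
      (F := fun ζ (η : ℝ) => f η s * g (ζ - η) s)
      (b := fun η => M * N * Real.exp (-(√s * |η|))) (fun ζ hζ => ?_)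
      (Eventually.of_forall fun η => ?_) (Eventually.of_forall fun η ζ hζ => ?_) ?_
    · exact ((rf.cont_line hs).mul (rg.cont_line' hs hζ)).aestronglyMeasurable
    · exact ((rg.holo s hs).comp (f := fun ζ : ℂ => ζ - η) (by fun_prop)
        fun ζ hζ => sub_mem_strip hζ η).const_mul _
    · exact conv_dom hM hN hf hg hζ hs le_rfl η
    · exact (integrable_exp_abs (Real.sqrt_pos.mpr hs.1)).const_mul _
  · rw [conv, conv, ← integral_conj, ← integral_neg_eq_self]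
    congr 1; ext η
    have e1 := rf.symm (-η) s hs
    have e2 := rg.symm (ξ + η) s hs
    rw [map_mul]
    push_cast at e1 e2 ⊢
    rw [e1, sub_neg_eq_add, e2]
    congr 2 <;> ring

lemma conv_sub {S : ℝ} {f g : ℂ → ℝ → ℂ} {M d : ℝ} (hM : 0 ≤ M) (hd : 0 ≤ d)
    (rf : Reg S f) (rg : Reg S g) (hf : Bd S f M) (hg : Bd S g M)
    (hfg : Bd S (fun ζ s => f ζ s - g ζ s) d) :
    BdF S (fun ζ s => conv f f ζ s - conv g g ζ s) 0 (8 * M * d) := by
  intro ζ hζ s hs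
  have e : conv f f ζ s - conv g g ζ s = conv (fun ζ s => f ζ s - g ζ s) f ζ s +
      conv g (fun ζ s => f ζ s - g ζ s) ζ s := by
    unfold conv
    rw [← integral_sub (conv_integrable hM hM rf rf hf hf hζ hs)
      (conv_integrable hM hM rg rg hg hg hζ hs),
      ← integral_add (conv_integrable hd hM (rf.sub rg) rf hfg hf hζ hs)
      (conv_integrable hM hd rg (rf.sub rg) hg hfg hζ hs)]
    congr 1; ext η; ring
  have h1 := conv_bound hd hM hfg hf ζ hζ s hs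
  have h2 := conv_bound hM hd hg hfg ζ hζ s hs
  simp only
  rw [e]
  refine (norm_add_le _ _).trans ?_
  linarith

end Pool.Agent.Lib.MP_de0dde_an
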