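import Mathlib

/-!
The entire functions `cosh √w` and `sinh √w / √w`, and the fundamental solutions of `y'' = z y`.
-/

namespace Pool.Agent.Lib.MP_de0dde_an

open Complex Filter Topology Set Metric
open scoped Nat

/-- `cosh √w` -/
noncomputable def cc (w : ℂ) : ℂ := ∑' n : ℕ, w ^ n / ((2 * n)! : ℂ)

/-- `sinh √w / √w` -/
noncomputable def ss (w : ℂ) : ℂ := ∑' n : ℕ, w ^ n / ((2 * n + 1)! : ℂ)

lemma diff_series (m : ℕ → ℕ) (hm : ∀ n, n ≤ m n) :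
    Differentiable ℂ (fun w : ℂ => ∑' n : ℕ, w ^ n / ((m n)! : ℂ)) := by
  intro w
  have h := differentiableOn_tsum_of_summable_norm (u := fun n : ℕ => (‖w‖ + 1) ^ n / (n ! : ℝ))
    (F := fun n (w : ℂ) => w ^ n / ((m n)! : ℂ)) (U := ball 0 (‖w‖ + 1))
    (Real.summable_pow_div_factorial _) (fun n => by fun_prop) isOpen_ball (by
      intro n z hz
      rw [mem_ball_zero_iff] at hz
      rw [norm_div, norm_pow, Complex.norm_natCast]
      have h1 : (n ! : ℝ) ≤ ((m n)! : ℝ) := by exact_mod_cast Nat.factorial_le (hm n)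
      have h2 : (0 : ℝ) < n ! := by exact_mod_cast Nat.factorial_pos n
      gcongr)
  exact h.differentiableAt (isOpen_ball.mem_nhds (by simp))

lemma summable_series (m : ℕ → ℕ) (hm : ∀ n, n ≤ m n) (w : ℂ) :
    Summable (fun n : ℕ => w ^ n / ((m n)! : ℂ)) := by
  refine Summable.of_norm_bounded (Real.summable_pow_div_factorial ‖w‖) fun n => ?_
  rw [norm_div, norm_pow, Complex.norm_natCast]
  have h1 : (n ! : ℝ) ≤ ((m n)! : ℝ) := by exact_mod_cast Nat.factorial_le (hm n)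
  have h2 : (0 : ℝ) < n ! := by exact_mod_cast Nat.factorial_pos n
  gcongr

lemma diff_cc : Differentiable ℂ cc := diff_series (fun n => 2 * n) (fun n => by omega)
lemma diff_ss : Differentiable ℂ ss := diff_series (fun n => 2 * n + 1) (fun n => by omega)

lemma cc_sq (l : ℂ) : cc (l ^ 2) = cosh l := by
  rw [← (Complex.hasSum_cosh l).tsum_eq, cc]
  simp_rw [← pow_mul]

lemma ss_sq (l : ℂ) : l * ss (l ^ 2) = sinh l := by
  rw [← (Complex.hasSum_sinh l).tsum_eq, ss, ← tsum_mul_left]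
  congr 1; ext n
  rw [← pow_mul, pow_succ]; ring

lemma ss_zero : ss 0 = 1 := by
  rw [ss, tsum_eq_single 0]
  · simp
  · intro n hn; simp [hn]

lemma conj_series (m : ℕ → ℕ) (w : ℂ) :
    (starRingEnd ℂ) (∑' n : ℕ, w ^ n / ((m n)! : ℂ)) =
      ∑' n : ℕ, ((starRingEnd ℂ) w) ^ n / ((m n)! : ℂ) := by
  rw [Complex.conj_tsum]
  simp

lemma conj_cc (w : ℂ) : (starRingEnd ℂ) (cc w) = cc ((starRingEnd ℂ) w) :=
  conj_series (fun n => 2 * n) w

lemma conj_ss (w : ℂ) : (starRingEnd ℂ) (ss w) = ss ((starRingEnd ℂ) w) :=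
  conj_series (fun n => 2 * n + 1) w

/-- `cosh (τ √z)` -/
noncomputable def Ch (z : ℂ) (τ : ℝ) : ℂ := cc (z * (τ : ℂ) ^ 2)

/-- `sinh (τ √z) / √z` -/
noncomputable def Sh (z : ℂ) (τ : ℝ) : ℂ := τ * ss (z * (τ : ℂ) ^ 2)

lemma exists_sq (z : ℂ) : ∃ l : ℂ, l ^ 2 = z ∧ 0 ≤ l.re := by
  obtain ⟨l, hl⟩ := IsAlgClosed.exists_pow_nat_eq z (by norm_num : 0 < 2)
  by_cases h : 0 ≤ l.re
  · exact ⟨l, hl, h⟩
  · exact ⟨-l, by rw [neg_sq, hl], by simp; linarith⟩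

lemma Ch_eq (l : ℂ) (τ : ℝ) : Ch (l ^ 2) τ = cosh (l * τ) := by
  rw [Ch, ← mul_pow, cc_sq]

lemma Sh_eq (l : ℂ) (τ : ℝ) : l * Sh (l ^ 2) τ = sinh (l * τ) := by
  rw [Sh, ← mul_pow, ← ss_sq]; ring

lemma Sh_zero_left (τ : ℝ) : Sh 0 τ = τ := by simp [Sh, ss_zero]

lemma Ch_zero_left (τ : ℝ) : Ch 0 τ = 1 := by
  have := Ch_eq 0 τ
  simpa using this

lemma Ch_neg (z : ℂ) (τ : ℝ) : Ch z (-τ) = Ch z τ := by simp [Ch]
lemma Sh_neg (z : ℂ) (τ : ℝ) : Sh z (-τ) = -Sh z τ := by simp [Sh]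

lemma hasDerivAt_Ch (z : ℂ) (τ : ℝ) : HasDerivAt (Ch z) (z * Sh z τ) τ := by
  obtain ⟨l, rfl, _⟩ := exists_sq z
  have e : Ch (l ^ 2) = fun τ : ℝ => cosh (l * τ) := funext (Ch_eq l)
  have h1 : HasDerivAt (fun τ : ℝ => l * (τ : ℂ)) (l * 1) τ :=
    (Complex.ofRealCLM.hasDerivAt (x := τ)).const_mul l
  have h2 := (Complex.hasDerivAt_cosh (l * τ)).comp τ h1
  rw [e]
  refine HasDerivAt.congr_deriv h2 ?_
  rw [← Sh_eq]; ring

lemma hasDerivAt_Sh (z : ℂ) (τ : ℝ) : HasDerivAt (Sh z) (Ch z τ) τ := by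
  obtain ⟨l, rfl, _⟩ := exists_sq z
  by_cases hl : l = 0
  · subst hl
    have e : Sh (0 ^ 2) = fun τ : ℝ => (τ : ℂ) := by
      funext τ; rw [zero_pow (by norm_num), Sh_zero_left]
    rw [e, zero_pow (by norm_num), Ch_zero_left]
    exact Complex.ofRealCLM.hasDerivAt
  · have e : Sh (l ^ 2) = fun τ : ℝ => l⁻¹ * sinh (l * τ) := by
      funext τ; rw [← Sh_eq]; field_simp
    have h1 : HasDerivAt (fun τ : ℝ => l * (τ : ℂ)) (l * 1) τ :=
      (Complex.ofRealCLM.hasDerivAt (x := τ)).const_mul l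
    have h2 := ((Complex.hasDerivAt_sinh (l * τ)).comp τ h1).const_mul l⁻¹
    rw [e]
    refine HasDerivAt.congr_deriv h2 ?_
    rw [Ch_eq]; field_simp

lemma Ch_sub (z : ℂ) (s t : ℝ) : Ch z (s - t) = Ch z s * Ch z t - z * Sh z s * Sh z t := by
  obtain ⟨l, rfl, _⟩ := exists_sq z
  rw [Ch_eq, Ch_eq, Ch_eq]
  push_cast
  rw [mul_sub, Complex.cosh_sub, ← Sh_eq, ← Sh_eq]; ring

lemma Sh_sub (z : ℂ) (s t : ℝ) : Sh z (s - t) = Sh z s * Ch z t - Ch z s * Sh z t := by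
  obtain ⟨l, rfl, _⟩ := exists_sq z
  by_cases hl : l = 0
  · subst hl
    rw [zero_pow (by norm_num)]
    simp [Sh_zero_left, Ch_zero_left]
  · apply mul_left_cancel₀ hl
    rw [Sh_eq, Ch_eq, Ch_eq]
    push_cast
    rw [mul_sub l, Complex.sinh_sub, ← Sh_eq, ← Sh_eq]; ring

lemma Ch_sq_sub (z : ℂ) (s : ℝ) : Ch z s * Ch z s - z * Sh z s * Sh z s = 1 := by
  rw [← Ch_sub, sub_self]
  obtain ⟨l, rfl, _⟩ := exists_sq z
  rw [Ch_eq]; simp

@[fun_prop]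
lemma continuous_cc : Continuous cc := diff_cc.continuous

@[fun_prop]
lemma continuous_ss : Continuous ss := diff_ss.continuous

lemma continuous_Ch : Continuous (fun p : ℂ × ℝ => Ch p.1 p.2) := by
  unfold Ch; fun_prop

lemma continuous_Sh : Continuous (fun p : ℂ × ℝ => Sh p.1 p.2) := by
  unfold Sh; fun_prop

lemma diff_Ch (τ : ℝ) : Differentiable ℂ (fun z => Ch z τ) :=
  diff_cc.comp (by fun_prop)

lemma diff_Sh (τ : ℝ) : Differentiable ℂ (fun z => Sh z τ) :=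
  (diff_ss.comp (by fun_prop)).const_mul _

lemma conj_Ch (z : ℂ) (τ : ℝ) : (starRingEnd ℂ) (Ch z τ) = Ch ((starRingEnd ℂ) z) τ := by
  simp [Ch, conj_cc]

lemma conj_Sh (z : ℂ) (τ : ℝ) : (starRingEnd ℂ) (Sh z τ) = Sh ((starRingEnd ℂ) z) τ := by
  simp [Sh, conj_ss]

end Pool.Agent.Lib.MP_de0dde_an
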