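import Pool.Agent.Lib.MP_de0dde_an.Gen

/-!
A final datum made of countably many atoms; the blow-up set is the closure of the set of centres.
-/

namespace Pool.Agent.Lib.MP_de0dde_an

open Complex Filter Topology Set Metric MeasureTheory Pool.Agent.Shared.HoloIntegral
open scoped Real

/-- summable weights -/
noncomputable def gam (y : ℕ → ℝ) (n : ℕ) : ℝ := (1 / 2) ^ n * Real.exp (-|y n|)

/-- the scale of an atom -/
noncomputable def bet (y : ℕ → ℝ) (n : ℕ) : ℝ := gam y n * (1 / 2) ^ n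

lemma gam_pos (y : ℕ → ℝ) (n : ℕ) : 0 < gam y n := by unfold gam; positivity

lemma gam_le (y : ℕ → ℝ) (n : ℕ) : gam y n ≤ (1 / 2) ^ n :=
  mul_le_of_le_one_right (by positivity)
    (Real.exp_le_one_iff.mpr (by linarith [abs_nonneg (y n)]))

lemma half_pow_le (n : ℕ) : (1 / 2 : ℝ) ^ n ≤ 1 := pow_le_one₀ (by norm_num) (by norm_num)

lemma bet_pos (y : ℕ → ℝ) (n : ℕ) : 0 < bet y n := by
  have := gam_pos y n; unfold bet; positivity

lemma bet_le (y : ℕ → ℝ) (n : ℕ) : bet y n ≤ (1 / 2) ^ n :=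
  mul_le_of_le_one_left (by positivity) ((gam_le y n).trans (half_pow_le n))

lemma bet_pow_le (y : ℕ → ℝ) (n k : ℕ) : bet y n ^ k ≤ 1 :=
  pow_le_one₀ (bet_pos y n).le ((bet_le y n).trans (half_pow_le n))

lemma tau_le (y : ℕ → ℝ) (n : ℕ) : bet y n ^ 6 ≤ (1 / 2) ^ n := by
  have h := mul_le_of_le_one_right (bet_pos y n).le (bet_pow_le y n 5)
  calc _ = bet y n * bet y n ^ 5 := by ring
    _ ≤ _ := h.trans (bet_le y n)

/-- the mass of an atom -/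
noncomputable def mas (y : ℕ → ℝ) (n : ℕ) : ℝ := gam y n * bet y n ^ 2

lemma mas_pos (y : ℕ → ℝ) (n : ℕ) : 0 < mas y n := by
  have := gam_pos y n; have := bet_pos y n; unfold mas; positivity

lemma mas_le_gam (y : ℕ → ℝ) (n : ℕ) : mas y n ≤ gam y n :=
  mul_le_of_le_one_right (gam_pos y n).le (bet_pow_le y n 2)

lemma mas_le (y : ℕ → ℝ) (n : ℕ) : mas y n ≤ (1 / 2) ^ n := (mas_le_gam y n).trans (gam_le y n)

/-- one atom -/
noncomputable def atom (y : ℕ → ℝ) (n : ℕ) (ζ : ℂ) : ℂ :=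
  mas y n * cexp (-(I * ζ * y n) - ((bet y n ^ 6 : ℝ) : ℂ) * ζ ^ 2)

lemma norm_atom (y : ℕ → ℝ) (n : ℕ) (ζ : ℂ) : ‖atom y n ζ‖ =
    mas y n * Real.exp (ζ.im * y n - bet y n ^ 6 * (ζ.re ^ 2 - ζ.im ^ 2)) := by
  have e : ∀ a : ℝ, (-(I * ζ * y n) - (a : ℂ) * ζ ^ 2).re =
      ζ.im * y n - a * (ζ.re ^ 2 - ζ.im ^ 2) := fun a => by simp [pow_two]
  rw [atom, norm_mul, Complex.norm_real, Real.norm_eq_abs, abs_of_pos (mas_pos y n),
    Complex.norm_exp, e]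

lemma atom_le (y : ℕ → ℝ) (n : ℕ) {ζ : ℂ} (hζ : ζ ∈ strip 1) :
    ‖atom y n ζ‖ ≤ 3 * (1 / 2) ^ n := by
  have him : ζ.im ^ 2 ≤ 1 := by
    rw [← sq_abs]; exact pow_le_one₀ (abs_nonneg _) (strip_le hζ)
  have h1 : ζ.im * y n ≤ |y n| := by
    refine (le_abs_self _).trans ?_
    rw [abs_mul]; exact mul_le_of_le_one_left (abs_nonneg _) (strip_le hζ)
  have h2 := bet_pow_le y n 6
  have h3 : 0 < bet y n ^ 6 := pow_pos (bet_pos y n) 6
  have h4 : ζ.im * y n - bet y n ^ 6 * (ζ.re ^ 2 - ζ.im ^ 2) ≤ |y n| + 1 := by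
    nlinarith [sq_nonneg ζ.re, sq_nonneg ζ.im, mul_nonneg h3.le (sq_nonneg ζ.re)]
  have h5 : Real.exp 1 ≤ 3 := Real.exp_one_lt_d9.le.trans (by norm_num)
  rw [norm_atom]
  calc _ ≤ gam y n * Real.exp (|y n| + 1) :=
        mul_le_mul (mas_le_gam y n) (Real.exp_le_exp.mpr h4) (Real.exp_pos _).le (gam_pos y n).le
    _ = Real.exp 1 * (1 / 2) ^ n := by
        rw [gam, mul_assoc, ← Real.exp_add, mul_comm]; congr 2; ring
    _ ≤ _ := by gcongr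

lemma atom_real_le (y : ℕ → ℝ) (n : ℕ) (ξ : ℝ) : ‖atom y n ξ‖ ≤ rw3 ξ * (1 / 2) ^ n := by
  have h2 := bet_pow_le y n 6
  have h3 : 0 < bet y n ^ 6 := pow_pos (bet_pos y n) 6
  have h1 : bet y n ^ 2 * Real.exp (-(bet y n ^ 6 * ξ ^ 2)) ≤ rw3 ξ := by
    refine le_rw3 ?_
    set E := Real.exp (-(bet y n ^ 6 * ξ ^ 2)) with hE
    have hE0 : 0 < E := Real.exp_pos _
    have hE1 : E ≤ 1 := Real.exp_le_one_iff.mpr (by nlinarith [sq_nonneg ξ])
    have a1 : (bet y n ^ 6 * ξ ^ 2 + 1) * E ≤ 1 := by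
      have := mul_le_mul_of_nonneg_right (Real.add_one_le_exp (bet y n ^ 6 * ξ ^ 2)) hE0.le
      rwa [hE, ← Real.exp_add, add_neg_cancel, Real.exp_zero] at this
    have a2 : bet y n ^ 6 * (1 + ξ ^ 2) * E ≤ 1 :=
      (mul_le_mul_of_nonneg_right (by nlinarith) hE0.le).trans a1
    have a3 : E ^ 2 ≤ 1 := pow_le_one₀ hE0.le hE1
    calc _ = bet y n ^ 6 * (1 + ξ ^ 2) * E * E ^ 2 := by ring
      _ ≤ 1 * 1 := mul_le_mul a2 a3 (by positivity) zero_le_one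
      _ = 1 := one_mul 1
  rw [norm_atom]
  simp only [Complex.ofReal_im, Complex.ofReal_re, zero_mul, zero_sub, ne_eq, OfNat.ofNat_ne_zero,
    not_false_eq_true, zero_pow, sub_zero]
  rw [mas, mul_assoc, mul_comm]
  exact mul_le_mul h1 (gam_le y n) (gam_pos y n).le (rw3_pos ξ).le

/-- the transform of the final datum -/
noncomputable def mm (y : ℕ → ℝ) (ζ : ℂ) : ℂ := ∑' n, atom y n ζ

lemma mm_le (y : ℕ → ℝ) {ζ : ℂ} (hζ : ζ ∈ strip 1) : ‖mm y ζ‖ ≤ 3 * 2 :=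
  tsum_of_norm_bounded (hasSum_geometric_two.mul_left 3) fun n => atom_le y n hζ

lemma mm_real_le (y : ℕ → ℝ) (ξ : ℝ) : ‖mm y ξ‖ ≤ rw3 ξ * 2 :=
  tsum_of_norm_bounded (hasSum_geometric_two.mul_left _) fun n => atom_real_le y n ξ

lemma mm_holo (y : ℕ → ℝ) : DifferentiableOn ℂ (mm y) (strip 1) :=
  Complex.differentiableOn_tsum_of_summable_norm (u := fun n => 3 * (1 / 2 : ℝ) ^ n) (F := atom y)
    (summable_geometric_two.mul_left _)
    (fun n => Differentiable.differentiableOn (by unfold atom; fun_prop)) (isOpen_strip 1)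
    fun n _ hz => atom_le y n hz

lemma mm_symm (y : ℕ → ℝ) (ξ : ℝ) : (starRingEnd ℂ) (mm y ξ) = mm y ((-ξ : ℝ) : ℂ) := by
  rw [mm, mm, Complex.conj_tsum]
  congr 1; ext n
  simp only [atom, map_mul, Complex.conj_ofReal, ← Complex.exp_conj]
  simp

/-- the free evolution of the final datum -/
noncomputable def vv (y : ℕ → ℝ) (ε : ℝ) (ζ : ℂ) (s : ℝ) : ℂ := heat ε {0} ζ s * mm y ζ

lemma vv_reg (y : ℕ → ℝ) (S ε : ℝ) : Reg S (vv y ε) := by
  have h := heat_reg S ε {0}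
  refine ⟨h.cont.mul ((mm_holo y).continuousOn.comp continuousOn_fst fun p hp => hp.1),
    fun s hs => (h.holo s hs).mul (mm_holo y), fun ξ s hs => ?_⟩
  rw [vv, vv, map_mul, h.symm ξ s hs, mm_symm]

lemma vv_bd (y : ℕ → ℝ) (S : ℝ) {ε : ℝ} (hε : 0 ≤ ε) :
    Bd S (vv y ε) (ε * (6 * Real.exp (S + 1))) := by
  intro ζ hζ s hs
  have h := heat_bd S hε {0} ζ hζ s hs
  simp only [Finset.sum_singleton, abs_zero, zero_add] at h
  have h2 := wt_pos ζ s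
  rw [vv, norm_mul]
  calc _ ≤ ε * Real.exp (S + 1) * wt ζ s * (3 * 2) :=
        mul_le_mul h (mm_le y hζ) (norm_nonneg _) (by positivity)
    _ = _ := by ring

lemma vv_deriv (y : ℕ → ℝ) (ε ξ s : ℝ) :
    HasDerivAt (vv y ε ξ) (-(ξ : ℂ) ^ 2 * vv y ε ξ s) s := by
  refine ((heat_hasDerivAt ε {0} ξ s).mul_const (mm y ξ)).congr_deriv ?_
  rw [vv]; ring

lemma heat_zero (ε ξ s : ℝ) : heat ε {0} ξ s = ((ε * Real.exp (-s * ξ ^ 2) : ℝ) : ℂ) := by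
  simp only [heat, Finset.sum_singleton]
  push_cast
  congr 2; ring

lemma vv_real_le (y : ℕ → ℝ) {ε : ℝ} (hε : 0 ≤ ε) (ξ : ℝ) {s : ℝ} (hs : 0 < s) :
    ‖vv y ε ξ s‖ ≤ ε * 2 * rw3 ξ := by
  have h1 : Real.exp (-s * ξ ^ 2) ≤ 1 := Real.exp_le_one_iff.mpr (by nlinarith [sq_nonneg ξ])
  rw [vv, norm_mul, heat_zero, Complex.norm_real, Real.norm_eq_abs, abs_of_nonneg (by positivity)]
  calc _ ≤ ε * (rw3 ξ * 2) :=
        mul_le_mul (mul_le_of_le_one_right hε h1) (mm_real_le y ξ) (norm_nonneg _) hε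
    _ = _ := by ring

lemma gauss_int {σ : ℝ} (hσ : 0 < σ) (d : ℝ) :
    ∫ ξ : ℝ, cexp (-(σ : ℂ) * ξ ^ 2 + I * d * ξ + 0) =
      ((√(π / σ) * Real.exp (-(d ^ 2 / (4 * σ))) : ℝ) : ℂ) := by
  have hb : (-(σ : ℂ)).re < 0 := by simpa using hσ
  rw [integral_cexp_quadratic hb, neg_neg]
  have h1 : ((π : ℂ) / σ) ^ (1 / 2 : ℂ) = (√(π / σ) : ℝ) := by
    rw [Real.sqrt_eq_rpow, Complex.ofReal_cpow (by positivity)]; push_cast; rfl
  have h2 : (σ : ℂ) ≠ 0 := by exact_mod_cast hσ.ne'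
  rw [h1]; push_cast
  congr 2
  rw [mul_pow, Complex.I_sq]; field_simp; ring

/-- the contribution of one atom in the physical variables -/
noncomputable def bump (y : ℕ → ℝ) (ε x s : ℝ) (n : ℕ) : ℝ :=
  ε * mas y n * (√(π / (s + bet y n ^ 6)) * Real.exp (-((x - y n) ^ 2 / (4 * (s + bet y n ^ 6)))))

lemma hasSum_bump (y : ℕ → ℝ) {ε : ℝ} (hε : 0 ≤ ε) (x : ℝ) {s : ℝ} (hs : 0 < s) :
    HasSum (bump y ε x s) (II (fun ξ s => vv y ε ξ s) (x, s)).re := by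
  have hσ : ∀ n, 0 < s + bet y n ^ 6 := fun n => by have := bet_pos y n; positivity
  set F : ℕ → ℝ → ℂ := fun n ξ => ((ε * mas y n : ℝ) : ℂ) *
    cexp (-((s + bet y n ^ 6 : ℝ) : ℂ) * ξ ^ 2 + I * ((x - y n : ℝ) : ℂ) * ξ + 0) with hF
  have hi : ∀ n, Integrable (F n) := fun n =>
    (integrable_cexp_quadratic' (by rw [Complex.neg_re, Complex.ofReal_re]; linarith [hσ n])
      _ _).const_mul _
  have e1 : ∀ n (ξ : ℝ), F n ξ = cexp (I * ξ * x) * heat ε {0} ξ s * atom y n ξ := by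
    intro n ξ
    simp only [hF, heat, atom, Finset.sum_singleton]
    have : cexp (-((s + bet y n ^ 6 : ℝ) : ℂ) * ξ ^ 2 + I * ((x - y n : ℝ) : ℂ) * ξ + 0) =
        cexp (I * ξ * x) * cexp (-(I * ξ * ((0 : ℝ) : ℂ)) - s * ξ ^ 2) *
          cexp (-(I * ξ * y n) - ((bet y n ^ 6 : ℝ) : ℂ) * ξ ^ 2) := by
      rw [← Complex.exp_add, ← Complex.exp_add]; congr 1; push_cast; ring
    rw [this]; push_cast; ring
  have g := integrable_exp_neg_mul_sq hs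
  have hsum : Summable fun n => ∫ ξ, ‖F n ξ‖ := by
    refine Summable.of_nonneg_of_le (fun n => integral_nonneg fun ξ => norm_nonneg _) (fun n => ?_)
      (summable_geometric_two.mul_left (ε * 3 * ∫ ξ : ℝ, Real.exp (-s * ξ ^ 2)))
    have : ∫ ξ, ‖F n ξ‖ ≤ ∫ ξ : ℝ, ε * (3 * (1 / 2) ^ n) * Real.exp (-s * ξ ^ 2) := by
      refine integral_mono (hi n).norm (g.const_mul _) fun ξ => ?_
      simp only
      rw [e1, norm_mul, norm_mul, norm_cexp_I, one_mul, heat_zero, Complex.norm_real,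
        Real.norm_eq_abs, abs_of_nonneg (by positivity)]
      calc _ ≤ ε * Real.exp (-s * ξ ^ 2) * (3 * (1 / 2) ^ n) :=
            mul_le_mul_of_nonneg_left (atom_le y n (ofReal_mem_strip one_pos ξ)) (by positivity)
        _ = _ := by ring
    rw [integral_const_mul] at this
    linarith
  have h := Complex.hasSum_re (hasSum_integral_of_summable_integral_norm hi hsum)
  have e2 : ∫ ξ, ∑' n, F n ξ = II (fun ξ s => vv y ε ξ s) (x, s) := by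
    unfold II
    congr 1; ext ξ
    simp_rw [e1]
    rw [tsum_mul_left, vv, mm, mul_assoc]
  have e3 : (fun n => (∫ ξ, F n ξ).re) = bump y ε x s := by
    funext n
    simp only [hF]
    rw [integral_const_mul, gauss_int (hσ n), ← Complex.ofReal_mul, Complex.ofReal_re, bump]
  rwa [e2, e3] at h

lemma bump_nonneg (y : ℕ → ℝ) {ε : ℝ} (hε : 0 ≤ ε) (x s : ℝ) (n : ℕ) : 0 ≤ bump y ε x s n := by
  have := mas_pos y n
  unfold bump; positivity

lemma bump_self (y : ℕ → ℝ) {ε : ℝ} (hε : 0 ≤ ε) (n : ℕ) :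
    ε * 2 ^ n ≤ bump y ε (y n) (bet y n ^ 6) n := by
  have hb := bet_pos y n
  have h1 : (bet y n ^ 3)⁻¹ ≤ √(π / (bet y n ^ 6 + bet y n ^ 6)) := by
    refine Real.le_sqrt_of_sq_le ?_
    rw [le_div_iff₀ (by positivity)]
    have e : (bet y n ^ 3)⁻¹ ^ 2 * (bet y n ^ 6 + bet y n ^ 6) = 2 := by field_simp; norm_num
    rw [e]; linarith [Real.pi_gt_three]
  have h2 : mas y n * (bet y n ^ 3)⁻¹ = 2 ^ n := by
    have hg := gam_pos y n
    have e : gam y n = bet y n * 2 ^ n := by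
      rw [bet, mul_assoc, ← mul_pow]; norm_num
    rw [mas, e]; field_simp
  have h3 := mas_pos y n
  rw [bump, sub_self]
  simp only [ne_eq, OfNat.ofNat_ne_zero, not_false_eq_true, zero_pow, zero_div, neg_zero,
    Real.exp_zero, mul_one]
  rw [← h2, ← mul_assoc]
  exact mul_le_mul_of_nonneg_left h1 (by positivity)

lemma bump_far (y : ℕ → ℝ) {ε δ : ℝ} (hε : 0 ≤ ε) (hδ : 0 < δ) {x s : ℝ} (hs : 0 < s) (n : ℕ)
    (h : δ ≤ |x - y n|) : bump y ε x s n ≤ ε * (1 + 4 * π / δ ^ 2) * (1 / 2) ^ n := by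
  have hb := bet_pos y n
  have hπ := Real.pi_pos
  set σ := s + bet y n ^ 6 with hσ
  have hσ0 : 0 < σ := by positivity
  have h1 : √(π / σ) ≤ 1 + π / σ := by
    refine Real.sqrt_le_iff.mpr ⟨by positivity, ?_⟩
    have : 0 ≤ π / σ := by positivity
    nlinarith
  have h2 : δ ^ 2 ≤ (x - y n) ^ 2 := by rw [← sq_abs (x - y n)]; gcongr
  set E := Real.exp (-((x - y n) ^ 2 / (4 * σ))) with hE
  have hE0 : 0 < E := Real.exp_pos _
  have h3 : ((x - y n) ^ 2 / (4 * σ) + 1) * E ≤ 1 := by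
    have := mul_le_mul_of_nonneg_right (Real.add_one_le_exp ((x - y n) ^ 2 / (4 * σ))) hE0.le
    rwa [hE, ← Real.exp_add, add_neg_cancel, Real.exp_zero] at this
  have h4 : δ ^ 2 / (4 * σ) ≤ (x - y n) ^ 2 / (4 * σ) := by gcongr
  have h5 : 0 ≤ δ ^ 2 / (4 * σ) := by positivity
  have h6 : δ ^ 2 / (4 * σ) * E ≤ 1 := by nlinarith
  have h7 : E ≤ 1 := by nlinarith
  have h8 : π / σ * E ≤ 4 * π / δ ^ 2 := by
    have e : π / σ * E = 4 * π / δ ^ 2 * (δ ^ 2 / (4 * σ) * E) := by field_simp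
    rw [e]; exact mul_le_of_le_one_right (by positivity) h6
  have h9 : √(π / σ) * E ≤ 1 + 4 * π / δ ^ 2 :=
    (mul_le_mul_of_nonneg_right h1 hE0.le).trans (by linarith)
  calc _ ≤ ε * (1 / 2) ^ n * (1 + 4 * π / δ ^ 2) :=
        mul_le_mul (mul_le_mul_of_nonneg_left (mas_le y n) hε) h9 (by positivity) (by positivity)
    _ = _ := by ring

theorem solution_seq {S : ℝ} (hS : 1 < S) (y : ℕ → ℝ) :
    ∃ (U W : ℕ → ℝ × ℝ → ℂ) (V : ℝ × ℝ → ℂ),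
      (∀ n : ℕ, ContDiffOn ℝ n (U 0) (univ ×ˢ Ioo 0 S)) ∧
      (∀ j x, ∀ s ∈ Ioo 0 S, HasDerivAt (fun y => U j (y, s)) (U (j + 1) (x, s)) x) ∧
      (∀ j x, ∀ s ∈ Ioo 0 S, HasDerivAt (fun y => W j (y, s)) (W (j + 1) (x, s)) x) ∧
      (∀ x, ∀ s ∈ Ioo 0 S, HasDerivAt (fun t => U 0 (x, t)) (V (x, s)) s) ∧
      (∀ x, ∀ s ∈ Ioo 0 S,
        HasDerivAt (fun t => V (x, t)) (U 4 (x, s) + U 2 (x, s) + W 2 (x, s)) s) ∧
      (∀ x, ∀ s ∈ Ioo 0 S, W 0 (x, s) = U 0 (x, s) * U 0 (x, s)) ∧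
      (∀ x, ∀ s ∈ Ioo 0 S, (U 0 (x, s)).im = 0) ∧
      (∀ j, ∀ s₀ > 0, ∃ C : ℝ, ∀ x, ∀ s ∈ Ico s₀ S, ‖U j (x, s)‖ ≤ C * Real.exp (-(|x| / 2))) ∧
      (∃ c > 0, ∃ C : ℝ, ∀ n : ℕ, c * 2 ^ n - C ≤ (U 0 (y n, bet y n ^ 6)).re) ∧
      (∀ δ > 0, ∃ C : ℝ, ∀ x, (∀ n, δ ≤ |x - y n|) → ∀ s ∈ Ioo 0 S, |(U 0 (x, s)).re| ≤ C) := by
  have hS0 : 0 < S := by linarith
  obtain ⟨K, hK0, hK⟩ := kk_bound hS0
  have hk := K2_pos hS0 hK0
  set k := K2 S K with hkdef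
  set K0 : ℝ := 6 * Real.exp (S + 1) with hK0def
  have hK00 : 0 < K0 := by positivity
  set D : ℝ := 2 * K0 * (1 + k) with hD
  have hD0 : 0 < D := by positivity
  set ε : ℝ := (16 * k * D)⁻¹ with hε
  have hε0 : 0 < ε := by positivity
  have small : 16 * k * (ε * D) ≤ 1 := by
    rw [hε]; apply le_of_eq; field_simp
  obtain ⟨U, W, V, a1, a2, a3, a4, a5, a6, a7, a8, C, a9⟩ :=
    solution_gen hS0 hK0 hK (V0 := ε * K0) (by positivity) (M := ε * D) (by rw [hD]; ring) small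
      (vv_reg y S ε) (vv_bd y S hε0.le) (vv_deriv y ε) (C0 := ε * 2) (by positivity)
      (fun ξ s hs => vv_real_le y hε0.le ξ hs.1)
  have b : ∀ x, ∀ s ∈ Ioo 0 S,
      |(U 0 (x, s)).re - (II (fun ξ s => vv y ε ξ s) (x, s)).re| ≤ C := fun x s hs => by
    rw [← Complex.sub_re]; exact (Complex.abs_re_le_norm _).trans (a9 x s hs)
  refine ⟨U, W, V, a1, a2, a3, a4, a5, a6, a7, a8, ⟨ε, hε0, C, fun n => ?_⟩, fun δ hδ =>
    ⟨ε * (1 + 4 * π / δ ^ 2) * 2 + C, fun x hx s hs => ?_⟩⟩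
  · have hs : bet y n ^ 6 ∈ Ioo 0 S := ⟨pow_pos (bet_pos y n) 6, (bet_pow_le y n 6).trans_lt hS⟩
    have h1 := le_hasSum (hasSum_bump y hε0.le (y n) hs.1) n
      fun m _ => bump_nonneg y hε0.le _ _ m
    linarith [bump_self y hε0.le n, (abs_le.mp (b (y n) _ hs)).1]
  · have h0 := hasSum_bump y hε0.le x hs.1
    have h1 := hasSum_le (fun n => bump_far y hε0.le hδ hs.1 n (hx n)) h0
      (hasSum_geometric_two.mul_left _)
    have h2 := h0.nonneg (bump_nonneg y hε0.le x s)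
    have h3 := abs_le.mp (b x s hs)
    rw [abs_le]; constructor <;> linarith [h3.1, h3.2]

lemma exists_seq {X : Set ℝ} (hX : X.Nonempty) : ∃ y : ℕ → ℝ, (∀ n, y n ∈ X) ∧
    ∀ x ∈ X, ∀ δ > 0, ∀ N : ℕ, ∃ n, N ≤ n ∧ |y n - x| < δ := by
  have : Nonempty X := hX.to_subtype
  refine ⟨fun n => (TopologicalSpace.denseSeq X (Nat.unpair n).1 : X), fun n => Subtype.prop _,
    fun x hx δ hδ N => ?_⟩
  obtain ⟨k, hk⟩ := Metric.denseRange_iff.mp (TopologicalSpace.denseRange_denseSeq X) ⟨x, hx⟩ δ hδ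
  refine ⟨Nat.pair k N, Nat.right_le_pair k N, ?_⟩
  rw [Subtype.dist_eq, Real.dist_eq, abs_sub_comm] at hk
  simpa using hk

end Pool.Agent.Lib.MP_de0dde_an
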