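import Pool.Agent.Lib.MP_de0dde_an.Exact

/-!
Every closed set is the exact blow-up set of a Schwartz class solution at the final time.
-/

namespace Pool.Agent.Lib.MP_de0dde_an

open Set Filter Topology
open scoped ContDiff

lemma hasDerivAt_re {f : ℝ → ℂ} {a : ℂ} {x : ℝ} (h : HasDerivAt f a x) :
    HasDerivAt (fun y => (f y).re) a.re x :=
  Complex.reCLM.hasFDerivAt.comp_hasDerivAt x h

lemma iteratedDeriv_re {U : ℕ → ℝ → ℂ} (h : ∀ j x, HasDerivAt (U j) (U (j + 1) x) x) (i : ℕ) :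
    iteratedDeriv i (fun y => (U 0 y).re) = fun y => (U i y).re := by
  induction i with
  | zero => rfl
  | succ i ih =>
    rw [iteratedDeriv_succ, ih]
    funext y
    exact (hasDerivAt_re (h i y)).deriv

lemma poly_exp_le (N : ℕ) (x : ℝ) :
    (1 + |x|) ^ N * Real.exp (-(|x| / 2)) ≤ N.factorial * 2 ^ N * Real.exp (1 / 2) := by
  have h := Real.pow_div_factorial_le_exp ((1 + |x|) / 2) (by positivity) N
  have hk : (0 : ℝ) < N.factorial := by exact_mod_cast Nat.factorial_pos N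
  rw [div_le_iff₀ hk, div_pow, div_le_iff₀ (by positivity)] at h
  calc _ ≤ Real.exp ((1 + |x|) / 2) * N.factorial * 2 ^ N * Real.exp (-(|x| / 2)) := by gcongr
    _ = N.factorial * 2 ^ N * (Real.exp ((1 + |x|) / 2) * Real.exp (-(|x| / 2))) := by ring
    _ = _ := by rw [← Real.exp_add]; congr 2; ring

theorem exact_set (T : ℝ) (hT : 0 < T) (X : Set ℝ) (hX : IsClosed X) :
    ∃ u : ℝ → ℝ → ℝ,
      ContDiffOn ℝ ∞ (fun p : ℝ × ℝ => u p.1 p.2) (univ ×ˢ Ico 0 T) ∧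
      (∀ x : ℝ, ∀ t ∈ Ico 0 T,
        iteratedDerivWithin 2 (fun τ => u x τ) (Ico 0 T) t =
          iteratedDeriv 2 (fun y => u y t) x + iteratedDeriv 2 (fun y => u y t ^ 2) x +
            iteratedDeriv 4 (fun y => u y t) x) ∧
      (∀ N : ℕ, 1 ≤ N → ∀ τ ∈ Ico 0 T, ∃ C : ℝ, ∀ x : ℝ, ∀ t ∈ Icc 0 τ,
        ∑ i ∈ Finset.range (N + 1), (1 + |x|) ^ N * |iteratedDeriv i (fun y => u y t) x| ≤ C) ∧
      ∀ x₀ : ℝ, x₀ ∈ X ↔ ∀ ε : ℝ, 0 < ε →
        ¬ ∃ C : ℝ, ∀ x t : ℝ, |x - x₀| < ε → T - ε < t → t ∈ Ico 0 T → |u x t| ≤ C := by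
  rcases X.eq_empty_or_nonempty with rfl | hne
  · refine ⟨fun _ _ => 0, contDiffOn_const, fun x t _ => by simp, fun N _ τ _ => ⟨0, fun x t _ => by
      simp⟩, fun x₀ => ⟨fun h => h.elim, fun h => (h 1 one_pos ⟨0, fun _ _ _ _ _ => by simp⟩).elim⟩⟩
  obtain ⟨y, hy, hdense⟩ := exists_seq hne
  obtain ⟨U, W, V, hsm, xU, xW, tU, tV, hW, him, hdec, ⟨c, hc, C, hblow⟩, hfar⟩ :=
    solution_seq (S := T + 1) (by linarith) y
  have hmem : ∀ t ∈ Ico 0 T, T - t ∈ Ioo 0 (T + 1) := fun t ht =>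
    ⟨by linarith [ht.2], by linarith [ht.1]⟩
  have hit : ∀ i, ∀ t ∈ Ico 0 T, iteratedDeriv i (fun y => (U 0 (y, T - t)).re) =
      fun y => (U i (y, T - t)).re := fun i t ht =>
    iteratedDeriv_re (U := fun j y => U j (y, T - t)) (fun j x => xU j x _ (hmem t ht)) i
  refine ⟨fun x t => (U 0 (x, T - t)).re, ?_, fun x t ht => ?_, fun N _ τ hτ => ?_,
    fun x₀ => ⟨fun hx₀ ε hε => ?_, fun h => ?_⟩⟩
  · rw [contDiffOn_infty]
    intro n
    refine Complex.reCLM.contDiff.comp_contDiffOn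
      ((hsm n).comp (f := fun p : ℝ × ℝ => (p.1, T - p.2)) (by fun_prop) ?_)
    intro p hp
    exact ⟨mem_univ _, hmem p.2 hp.2⟩
  · have hs := hmem t ht
    have hΩ : IsOpen ((univ : Set ℝ) ×ˢ Ioo 0 (T + 1)) := isOpen_univ.prod isOpen_Ioo
    have h1 : ContDiffAt ℝ (2 : ℕ) (fun τ => (U 0 (x, T - τ)).re) t :=
      Complex.reCLM.contDiff.contDiffAt.comp t
        (ContDiffAt.comp (f := fun τ : ℝ => (x, T - τ)) t
          ((hsm 2).contDiffAt (hΩ.mem_nhds ⟨mem_univ _, hs⟩)) (by fun_prop))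
    have hsq : (fun y => (U 0 (y, T - t)).re ^ 2) = fun y => (W 0 (y, T - t)).re := by
      funext y
      rw [hW y _ hs, Complex.mul_re, him y _ hs]; ring
    have hW2 := iteratedDeriv_re (U := fun j y => W j (y, T - t)) (fun j x => xW j x _ hs) 2
    rw [iteratedDerivWithin_eq_iteratedDeriv (uniqueDiffOn_Ico 0 T) h1 ht, hsq, hW2, hit 2 t ht,
      hit 4 t ht, iteratedDeriv_succ, iteratedDeriv_one]
    have hneg : ∀ τ : ℝ, HasDerivAt (fun τ => T - τ) (-1) τ := fun τ =>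
      (hasDerivAt_id τ).const_sub T
    have h2 : deriv (fun τ => (U 0 (x, T - τ)).re) =ᶠ[𝓝 t] fun τ => -(V (x, T - τ)).re := by
      have hn : ∀ᶠ τ in 𝓝 t, T - τ ∈ Ioo 0 (T + 1) :=
        (hneg t).continuousAt.eventually (isOpen_Ioo.mem_nhds hs)
      filter_upwards [hn] with τ hτ
      have := ((hasDerivAt_re (tU x _ hτ)).comp τ (hneg τ)).deriv
      simpa [Function.comp_def] using this
    rw [h2.deriv_eq]
    have := (((hasDerivAt_re (tV x _ hs)).comp t (hneg t)).neg).deriv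
    simp only [Complex.add_re] at this
    refine Eq.trans this ?_
    ring
  · choose Cf hCf using fun j => hdec j (T - τ) (by linarith [hτ.2])
    refine ⟨∑ i ∈ Finset.range (N + 1), |Cf i| * (N.factorial * 2 ^ N * Real.exp (1 / 2)),
      fun x t ht => Finset.sum_le_sum fun i _ => ?_⟩
    rw [hit i t ⟨ht.1, ht.2.trans_lt hτ.2⟩]
    have h1 := hCf i x (T - t) ⟨by linarith [ht.2], by linarith [ht.1]⟩
    have h2 : |(U i (x, T - t)).re| ≤ |Cf i| * Real.exp (-(|x| / 2)) :=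
      (Complex.abs_re_le_norm _).trans (h1.trans
        (mul_le_mul_of_nonneg_right (le_abs_self _) (Real.exp_pos _).le))
    calc _ ≤ (1 + |x|) ^ N * (|Cf i| * Real.exp (-(|x| / 2))) := by gcongr
      _ = |Cf i| * ((1 + |x|) ^ N * Real.exp (-(|x| / 2))) := by ring
      _ ≤ _ := mul_le_mul_of_nonneg_left (poly_exp_le N x) (abs_nonneg _)
  · rintro ⟨B, hB⟩
    have hm : 0 < min (min (ε / 2) T) (c / (|B| + |C| + 1)) := by positivity
    obtain ⟨N, hN⟩ := exists_pow_lt_of_lt_one hm (show (1 / 2 : ℝ) < 1 by norm_num)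
    obtain ⟨n, hn, hx⟩ := hdense x₀ hx₀ ε hε N
    have hs0 : 0 < bet y n ^ 6 := pow_pos (bet_pos y n) 6
    have hp : (1 / 2 : ℝ) ^ n ≤ min (min (ε / 2) T) (c / (|B| + |C| + 1)) :=
      (pow_le_pow_of_le_one (by norm_num) (by norm_num) hn).trans hN.le
    have hs := (tau_le y n).trans hp
    have hs1 : bet y n ^ 6 ≤ ε / 2 := hs.trans ((min_le_left _ _).trans (min_le_left _ _))
    have hs2 : bet y n ^ 6 ≤ T := hs.trans ((min_le_left _ _).trans (min_le_right _ _))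
    have h1 := hB (y n) (T - bet y n ^ 6) hx (by linarith) ⟨by linarith, by linarith⟩
    have h2 := hblow n
    simp only [sub_sub_cancel] at h1
    have h3 := hp.trans (min_le_right _ _)
    rw [one_div, inv_pow, inv_eq_one_div, div_le_div_iff₀ (by positivity) (by positivity)] at h3
    linarith [le_abs_self B, le_abs_self C, le_abs_self (U 0 (y n, bet y n ^ 6)).re]
  · by_contra hx₀
    obtain ⟨r, hr, hball⟩ := Metric.isOpen_iff.mp hX.isOpen_compl x₀ hx₀
    obtain ⟨D, hD⟩ := hfar (r / 2) (by positivity)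
    refine h (r / 2) (by positivity) ⟨D, fun x t hx _ ht => hD x (fun n => ?_) _ (hmem t ht)⟩
    have h1 : r ≤ |y n - x₀| := by
      by_contra hlt
      exact hball (by rw [Metric.mem_ball, Real.dist_eq]; exact not_le.mp hlt) (hy n)
    have h2 := abs_sub_le (y n) x x₀
    rw [abs_sub_comm (y n) x] at h2
    linarith

end Pool.Agent.Lib.MP_de0dde_an
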