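import Pool.Agent.Lib.MP_de0dde_an.Green

/-!
The fixed point on the Fourier side.
-/

namespace Pool.Agent.Lib.MP_de0dde_an

open Complex Filter Topology Set Metric MeasureTheory Pool.Agent.Shared.HoloIntegral
open scoped Real

/-- the forcing term -/
noncomputable def FF (v φ : ℂ → ℝ → ℂ) (ζ : ℂ) (s : ℝ) : ℂ := v ζ s + conv φ φ ζ s

/-- the nonlinear map -/
noncomputable def TT (S : ℝ) (v φ : ℂ → ℝ → ℂ) (ζ : ℂ) (s : ℝ) : ℂ := v ζ s + GG S (FF v φ) ζ s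

lemma FF_reg {S : ℝ} {v φ : ℂ → ℝ → ℂ} {M : ℝ} (hM : 0 ≤ M) (rv : Reg S v) (rφ : Reg S φ)
    (bφ : Bd S φ M) : Reg S (FF v φ) := rv.add (conv_reg hM hM rφ rφ bφ bφ)

lemma FF_bd {S : ℝ} {v φ : ℂ → ℝ → ℂ} {V M : ℝ} (hM : 0 ≤ M) (bv : Bd S v V)
    (bφ : Bd S φ M) : BdF S (FF v φ) V (4 * M * M) := by
  intro ζ hζ s hs
  have h1 := bv ζ hζ s hs
  have h2 := conv_bound hM hM bφ bφ ζ hζ s hs
  refine (norm_add_le _ _).trans ?_
  linarith

lemma inv_one_add_sq_le (x : ℝ) : (1 + x ^ 2)⁻¹ ≤ 1 :=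
  inv_le_one_of_one_le₀ (by nlinarith [sq_nonneg x])

lemma TT_step {S K : ℝ} (hS : 0 < S) (hK0 : 0 < K) (hK : KB S K) {v φ : ℂ → ℝ → ℂ} {V M : ℝ}
    (hV : 0 ≤ V) (hM : M = 2 * V * (1 + K2 S K)) (small : 16 * K2 S K * M ≤ 1)
    (rv : Reg S v) (bv : Bd S v V) (rφ : Reg S φ) (bφ : Bd S φ M) :
    Reg S (TT S v φ) ∧ Bd S (TT S v φ) M := by
  have hk := K2_pos hS hK0
  have hM0 : 0 ≤ M := by rw [hM]; positivity
  have rF := FF_reg hM0 rv rφ bφ
  have bF := FF_bd hM0 bv bφ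
  refine ⟨rv.add (GG_reg hS hK0 hK hV (by positivity) rF bF), fun ζ hζ s hs => ?_⟩
  have h1 := bv ζ hζ s hs
  have h2 := GG_bound hS hK0 hK hV (by positivity) bF hζ hs
  have h3 := inv_one_add_sq_le ζ.re
  have h4 := wt_pos ζ s
  have h5 : K2 S K * (V * (1 + ζ.re ^ 2)⁻¹ + 4 * M * M) ≤ K2 S K * V + M / 4 := by
    have : V * (1 + ζ.re ^ 2)⁻¹ ≤ V := mul_le_of_le_one_right hV h3
    nlinarith
  refine (norm_add_le _ _).trans ?_
  have h6 := mul_le_mul_of_nonneg_right h5 h4.le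
  have h7 : V + (K2 S K * V + M / 4) ≤ M := by nlinarith
  nlinarith

lemma TT_lip {S K : ℝ} (hS : 0 < S) (hK0 : 0 < K) (hK : KB S K) {v φ ψ : ℂ → ℝ → ℂ} {V M d : ℝ}
    (hV : 0 ≤ V) (hM0 : 0 ≤ M) (small : 16 * K2 S K * M ≤ 1) (hd : 0 ≤ d)
    (rv : Reg S v) (bv : Bd S v V) (rφ : Reg S φ) (bφ : Bd S φ M) (rψ : Reg S ψ) (bψ : Bd S ψ M)
    (h : Bd S (fun ζ s => φ ζ s - ψ ζ s) d) :
    Bd S (fun ζ s => TT S v φ ζ s - TT S v ψ ζ s) (d / 2) := by
  intro ζ hζ s hs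
  have hk := K2_pos hS hK0
  have e : TT S v φ ζ s - TT S v ψ ζ s = GG S (fun ζ s => FF v φ ζ s - FF v ψ ζ s) ζ s := by
    rw [← GG_sub hS hV (by positivity) (FF_reg hM0 rv rφ bφ) (FF_bd hM0 bv bφ) hV
      (by positivity) (FF_reg hM0 rv rψ bψ) (FF_bd hM0 bv bψ) hζ]
    unfold TT; ring
  have hb : BdF S (fun ζ s => FF v φ ζ s - FF v ψ ζ s) 0 (8 * M * d) := by
    intro ζ hζ s hs
    have := conv_sub hM0 hd rφ rψ bφ bψ h ζ hζ s hs
    simpa [FF] using this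
  have h2 := GG_bound hS hK0 hK le_rfl (by positivity) hb hζ hs
  simp only
  rw [e]
  refine h2.trans (mul_le_mul_of_nonneg_right ?_ (wt_pos ζ s).le)
  nlinarith

theorem exists_fixed {S K : ℝ} (hS : 0 < S) (hK0 : 0 < K) (hK : KB S K) {v : ℂ → ℝ → ℂ} {V M : ℝ}
    (hV : 0 ≤ V) (hM : M = 2 * V * (1 + K2 S K)) (small : 16 * K2 S K * M ≤ 1)
    (rv : Reg S v) (bv : Bd S v V) :
    ∃ φ, Reg S φ ∧ Bd S φ M ∧ ∀ ζ ∈ strip 1, ∀ s ∈ Ioo 0 S, φ ζ s = TT S v φ ζ s := by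
  have hk := K2_pos hS hK0
  have hM0 : 0 ≤ M := by rw [hM]; positivity
  let φ : ℕ → ℂ → ℝ → ℂ := fun n => (TT S v)^[n] (fun _ _ => 0)
  have hsucc : ∀ n, φ (n + 1) = TT S v (φ n) := fun n => Function.iterate_succ_apply' _ _ _
  have hreg : ∀ n, Reg S (φ n) ∧ Bd S (φ n) M := by
    intro n
    induction n with
    | zero =>
      refine ⟨⟨continuousOn_const, fun _ _ => differentiableOn_const _, fun _ _ _ => by simp [φ]⟩,
        fun ζ _ s _ => ?_⟩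
      have := wt_pos ζ s
      simp only [φ, Function.iterate_zero, id, norm_zero]; positivity
    | succ n ih => rw [hsucc]; exact TT_step hS hK0 hK hV hM small rv bv ih.1 ih.2
  have hdiff : ∀ n, Bd S (fun ζ s => φ n ζ s - φ (n + 1) ζ s) (M * (1 / 2) ^ n) := by
    intro n
    induction n with
    | zero =>
      intro ζ hζ s hs
      have := (hreg 1).2 ζ hζ s hs
      simpa [φ] using this
    | succ n ih =>
      have := TT_lip hS hK0 hK hV hM0 small (by positivity) rv bv (hreg n).1 (hreg n).2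
        (hreg (n + 1)).1 (hreg (n + 1)).2 ih
      rw [← hsucc, ← hsucc] at this
      rwa [pow_succ, ← mul_assoc, mul_one_div]
  have hd : ∀ ζ ∈ strip 1, ∀ s ∈ Ioo 0 S, ∀ n,
      dist (φ n ζ s) (φ (n + 1) ζ s) ≤ M * wt ζ s * (1 / 2) ^ n := by
    intro ζ hζ s hs n
    rw [dist_eq_norm]
    have := hdiff n ζ hζ s hs
    linarith
  let ψ : ℂ → ℝ → ℂ := fun ζ s => limUnder atTop fun n => φ n ζ s
  have hlim : ∀ ζ ∈ strip 1, ∀ s ∈ Ioo 0 S, Tendsto (fun n => φ n ζ s) atTop (𝓝 (ψ ζ s)) :=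
    fun ζ hζ s hs =>
      (cauchySeq_of_le_geometric (1 / 2) _ (by norm_num) (hd ζ hζ s hs)).tendsto_limUnder
  have hrate : ∀ n, Bd S (fun ζ s => φ n ζ s - ψ ζ s) (2 * M * (1 / 2) ^ n) := by
    intro n ζ hζ s hs
    have := dist_le_of_le_geometric_of_tendsto (1 / 2) _ (by norm_num) (hd ζ hζ s hs)
      (hlim ζ hζ s hs) n
    rw [dist_eq_norm] at this
    refine this.trans (le_of_eq ?_); ring
  have h0 : Tendsto (fun n : ℕ => 2 * M * (1 / 2 : ℝ) ^ n) atTop (𝓝 0) := by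
    have := (tendsto_pow_atTop_nhds_zero_of_lt_one (r := (1 / 2 : ℝ)) (by norm_num)
      (by norm_num)).const_mul (2 * M)
    rwa [mul_zero] at this
  have hunif : ∀ ε > 0, ∀ᶠ n in atTop, ∀ ζ ∈ strip 1, ∀ s ∈ Ioo 0 S,
      dist (ψ ζ s) (φ n ζ s) < ε := by
    intro ε hε
    filter_upwards [h0.eventually (gt_mem_nhds hε)] with n hn ζ hζ s hs
    rw [dist_comm, dist_eq_norm]
    exact ((hrate n ζ hζ s hs).trans
      (mul_le_of_le_one_right (by positivity) (wt_le_one ζ s))).trans_lt hn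
  have rψ : Reg S ψ := by
    refine ⟨?_, fun s hs => ?_, fun ξ s hs => ?_⟩
    · refine TendstoUniformlyOn.continuousOn (F := fun n (p : ℂ × ℝ) => φ n p.1 p.2) (p := atTop)
        (Metric.tendstoUniformlyOn_iff.mpr fun ε hε => ?_)
        (Eventually.of_forall fun n => (hreg n).1.cont).frequently
      filter_upwards [hunif ε hε] with n hn p hp
      exact hn p.1 hp.1 p.2 hp.2
    · refine TendstoLocallyUniformlyOn.differentiableOn (F := fun n ζ => φ n ζ s) (φ := atTop)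
        (TendstoUniformlyOn.tendstoLocallyUniformlyOn
          (Metric.tendstoUniformlyOn_iff.mpr fun ε hε => ?_))
        (Eventually.of_forall fun n => (hreg n).1.holo s hs) (isOpen_strip 1)
      filter_upwards [hunif ε hε] with n hn ζ hζ
      exact hn ζ hζ s hs
    · have h1 := (Complex.continuous_conj.tendsto _).comp
        (hlim ξ (ofReal_mem_strip one_pos ξ) s hs)
      refine tendsto_nhds_unique h1 ?_
      refine (hlim _ (ofReal_mem_strip one_pos (-ξ)) s hs).congr fun n => ?_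
      exact ((hreg n).1.symm ξ s hs).symm
  have bψ : Bd S ψ M := fun ζ hζ s hs =>
    le_of_tendsto' (hlim ζ hζ s hs).norm fun n => (hreg n).2 ζ hζ s hs
  refine ⟨ψ, rψ, bψ, fun ζ hζ s hs => ?_⟩
  have h1 : Tendsto (fun n => φ (n + 1) ζ s) atTop (𝓝 (ψ ζ s)) :=
    (hlim ζ hζ s hs).comp (tendsto_add_atTop_nat 1)
  refine tendsto_nhds_unique h1 ?_
  rw [tendsto_iff_norm_sub_tendsto_zero]
  refine squeeze_zero (fun _ => norm_nonneg _) (fun n => ?_) h0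
  have := TT_lip hS hK0 hK hV hM0 small (by positivity) rv bv (hreg n).1 (hreg n).2 rψ bψ
    (hrate n) ζ hζ s hs
  rw [hsucc]
  refine this.trans ((mul_le_of_le_one_right (by positivity) (wt_le_one ζ s)).trans ?_)
  have : 0 ≤ 2 * M * (1 / 2 : ℝ) ^ n := by positivity
  linarith

/-- the heat flow of a sum of point masses, on the Fourier side -/
noncomputable def heat (ε : ℝ) (X : Finset ℝ) (ζ : ℂ) (s : ℝ) : ℂ :=
  ε * ∑ x ∈ X, cexp (-(I * ζ * x) - s * ζ ^ 2)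

lemma heat_reg (S ε : ℝ) (X : Finset ℝ) : Reg S (heat ε X) := by
  refine ⟨Continuous.continuousOn ?_, fun s _ => Differentiable.differentiableOn ?_,
    fun ξ s _ => ?_⟩
  · unfold heat; fun_prop
  · unfold heat; fun_prop
  · simp only [heat, map_mul, map_sum, Complex.conj_ofReal, ← Complex.exp_conj]
    simp

lemma heat_bd (S : ℝ) {ε : ℝ} (hε : 0 ≤ ε) (X : Finset ℝ) :
    Bd S (heat ε X) (ε * ∑ x ∈ X, Real.exp (|x| + S + 1)) := by
  intro ζ hζ s hs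
  rw [heat, norm_mul, Complex.norm_real, Real.norm_eq_abs, abs_of_nonneg hε, mul_assoc,
    Finset.sum_mul]
  refine mul_le_mul_of_nonneg_left ((norm_sum_le _ _).trans (Finset.sum_le_sum fun x _ => ?_)) hε
  rw [Complex.norm_exp, wt, ← Real.exp_add]
  apply Real.exp_le_exp.mpr
  have e : (-(I * ζ * x) - s * ζ ^ 2).re = ζ.im * x - s * (ζ.re ^ 2 - ζ.im ^ 2) := by
    simp [pow_two]
  have h1 : |ζ.im| ≤ 1 := strip_le hζ
  have hb : ζ.im ^ 2 ≤ 1 := by rw [← sq_abs]; exact pow_le_one₀ (abs_nonneg _) h1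
  have h2 : ζ.im * x ≤ |x| := by
    refine (le_abs_self _).trans ?_
    rw [abs_mul]; exact mul_le_of_le_one_left (abs_nonneg _) h1
  have h3 : s * ζ.im ^ 2 ≤ S := by nlinarith [hs.1, hs.2]
  have h4 : (√s * |ζ.re|) ^ 2 = s * ζ.re ^ 2 := by
    rw [mul_pow, Real.sq_sqrt hs.1.le, sq_abs]
  rw [e]
  nlinarith [sq_nonneg (√s * |ζ.re| - 1 / 2)]

lemma heat_hasDerivAt (ε : ℝ) (X : Finset ℝ) (ζ : ℂ) (s : ℝ) :
    HasDerivAt (heat ε X ζ) (-ζ ^ 2 * heat ε X ζ s) s := by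
  have h : ∀ x ∈ X, HasDerivAt (fun s : ℝ => cexp (-(I * ζ * x) - s * ζ ^ 2))
      (cexp (-(I * ζ * x) - s * ζ ^ 2) * (-(1 * ζ ^ 2))) s := fun x _ =>
    (((Complex.ofRealCLM.hasDerivAt (x := s)).mul_const (ζ ^ 2)).const_sub _).cexp
  have h2 := (HasDerivAt.fun_sum h).const_mul (ε : ℂ)
  refine HasDerivAt.congr_deriv h2 ?_
  rw [heat, ← Finset.sum_mul]; ring

end Pool.Agent.Lib.MP_de0dde_an
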