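import Pool.Agent.Lib.MP_de0dde_an.Solution

/-!
The solution for an arbitrary small final datum with bounded transform in the strip.
-/

namespace Pool.Agent.Lib.MP_de0dde_an

open Complex Filter Topology Set Metric MeasureTheory Pool.Agent.Shared.HoloIntegral
open scoped Real

/-- the decay weight -/
noncomputable def rw3 (ξ : ℝ) : ℝ := (1 + ξ ^ 2) ^ (-(1 / 3 : ℝ))

lemma rw3_pos (ξ : ℝ) : 0 < rw3 ξ := Real.rpow_pos_of_pos (by positivity) _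

lemma rw3_cube (ξ : ℝ) : rw3 ξ ^ 3 = (1 + ξ ^ 2)⁻¹ := by
  rw [rw3, ← Real.rpow_natCast, ← Real.rpow_mul (by positivity), ← Real.rpow_neg_one]
  norm_num

lemma le_rw3 {ξ y : ℝ} (h : y ^ 3 * (1 + ξ ^ 2) ≤ 1) : y ≤ rw3 ξ := by
  refine le_of_pow_le_pow_left₀ three_ne_zero (rw3_pos ξ).le ?_
  rw [rw3_cube, inv_eq_one_div, le_div_iff₀ (by positivity)]
  exact h

lemma rw3_le_one (ξ : ℝ) : rw3 ξ ≤ 1 :=
  Real.rpow_le_one_of_one_le_of_nonpos (by nlinarith [sq_nonneg ξ]) (by norm_num)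

lemma integrable_rw3_sq : Integrable fun ξ : ℝ => rw3 ξ ^ 2 := by
  have h := integrable_rpow_neg_one_add_norm_sq (E := ℝ) (μ := volume) (r := 4 / 3)
    (by simp; norm_num)
  refine h.congr (Eventually.of_forall fun ξ => ?_)
  simp only [rw3, Real.norm_eq_abs, sq_abs]
  rw [← Real.rpow_natCast ((1 + ξ ^ 2) ^ (-(1 / 3 : ℝ))) 2, ← Real.rpow_mul (by positivity)]
  norm_num

lemma kk_real {S K : ℝ} (hK0 : 0 < K) (hK : KB S K) (ξ : ℝ) {s r : ℝ} (hs : s ∈ Ioo 0 S)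
    (hr : r ∈ Ioo 0 S) : ‖kk ξ (s - r)‖ ≤ K * Real.exp (-(ξ ^ 2 / 4 * |s - r|)) := by
  refine (hK ξ (by simp) (s - r) (abs_sub_le_S hs hr)).trans ?_
  refine mul_le_mul_of_nonneg_left (Real.exp_le_exp.mpr ?_) hK0.le
  have : 0 ≤ ξ ^ 2 * |s - r| := by positivity
  rw [Complex.ofReal_re]; linarith

lemma GG_real_one {S K : ℝ} (hS : 0 < S) (hK0 : 0 < K) (hK : KB S K) {F : ℂ → ℝ → ℂ} {A B : ℝ}
    (hA : 0 ≤ A) (hB : 0 ≤ B) (hF : BdF S F A B) :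
    ∃ C : ℝ, 0 ≤ C ∧ ∀ ξ : ℝ, ∀ s ∈ Ioo 0 S, ‖GG S F ξ s‖ ≤ C * rw3 ξ := by
  have i2 : IntegrableOn (fun r : ℝ => r ^ (-(3 / 4) : ℝ)) (Ioo 0 S) :=
    (intervalIntegral.integrableOn_Ioo_rpow_iff hS).mpr (by norm_num)
  set c := ∫ r in Ioo 0 S, r ^ (-(3 / 4) : ℝ) with hcdef
  have hc : 0 ≤ c := setIntegral_nonneg measurableSet_Ioo fun r hr => Real.rpow_nonneg hr.1.le _
  refine ⟨K * ((A + 2 * B) * (S + 8) + B * c), by positivity, fun ξ s hs => ?_⟩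
  have i1 : IntegrableOn (fun r : ℝ => Real.exp (-(ξ ^ 2 / 4 * |s - r|))) (Ioo 0 S) :=
    (Continuous.integrableOn_Icc (by fun_prop)).mono_set Ioo_subset_Icc_self
  set ρ := rw3 ξ with hρ
  have hρ0 : 0 < ρ := rw3_pos ξ
  have hρ1 : ρ ≤ 1 := rw3_le_one ξ
  have hρ3 : ρ ^ 3 = (1 + ξ ^ 2)⁻¹ := rw3_cube ξ
  have h1 : ‖GG S F ξ s‖ ≤ ∫ r in Ioo 0 S, K * ((A + B * |ξ| + B * ρ⁻¹ ^ 2) *
      Real.exp (-(ξ ^ 2 / 4 * |s - r|)) + B * ρ * r ^ (-(3 / 4) : ℝ)) := by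
    refine norm_integral_le_of_norm_le (((i1.const_mul _).add (i2.const_mul _)).const_mul _) ?_
    filter_upwards [ae_restrict_mem measurableSet_Ioo] with r hr
    rw [norm_mul]
    have b1 := kk_real hK0 hK ξ hs hr
    have b2 : ‖F ξ r‖ ≤ A + B * (|ξ| + (√r)⁻¹) := by
      simpa using hF.dom_time hA hB (ofReal_mem_strip one_pos ξ) (R := |ξ|) (by simp) hr
    have b4 : Real.exp (-(ξ ^ 2 / 4 * |s - r|)) ≤ 1 := by
      rw [Real.exp_le_one_iff]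
      have : 0 ≤ ξ ^ 2 / 4 * |s - r| := by positivity
      linarith
    set q : ℝ := r ^ (-(1 / 4) : ℝ) with hq
    have hq0 : 0 < q := Real.rpow_pos_of_pos hr.1 _
    have e2 : (√r)⁻¹ = q ^ 2 := by
      rw [hq, ← Real.rpow_natCast, ← Real.rpow_mul hr.1.le, Real.sqrt_eq_rpow,
        ← Real.rpow_neg hr.1.le]
      norm_num
    have e3 : r ^ (-(3 / 4) : ℝ) = q ^ 3 := by
      rw [hq, ← Real.rpow_natCast, ← Real.rpow_mul hr.1.le]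
      norm_num
    have b5 : q ^ 2 ≤ ρ⁻¹ ^ 2 + ρ * q ^ 3 := by
      rcases le_total q ρ⁻¹ with h | h
      · have : q ^ 2 ≤ ρ⁻¹ ^ 2 := by gcongr
        have : 0 ≤ ρ * q ^ 3 := by positivity
        linarith
      · have h3 : 1 ≤ ρ * q := by
          have := mul_le_mul_of_nonneg_left h hρ0.le
          rwa [mul_inv_cancel₀ hρ0.ne'] at this
        have h4 := mul_le_mul_of_nonneg_right h3 (sq_nonneg q)
        have : 0 ≤ ρ⁻¹ ^ 2 := by positivity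
        nlinarith
    set E := Real.exp (-(ξ ^ 2 / 4 * |s - r|)) with hE
    have hE0 : 0 < E := Real.exp_pos _
    rw [e2] at b2
    rw [e3]
    have b6 : B * (ρ * q ^ 3) * E ≤ B * (ρ * q ^ 3) := mul_le_of_le_one_right (by positivity) b4
    calc _ ≤ (K * E) * (A + B * (|ξ| + (ρ⁻¹ ^ 2 + ρ * q ^ 3))) :=
          mul_le_mul b1 (b2.trans (by gcongr)) (norm_nonneg _) (by positivity)
      _ = K * ((A + B * |ξ| + B * ρ⁻¹ ^ 2) * E + B * (ρ * q ^ 3) * E) := by ring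
      _ ≤ _ := mul_le_mul_of_nonneg_left (by linarith) hK0.le
  rw [integral_const_mul, integral_add (i1.const_mul _) (i2.const_mul _), integral_const_mul,
    integral_const_mul] at h1
  refine h1.trans ?_
  have h2 := time_integral_le hS ξ s
  rw [div_eq_mul_inv (S + 8), ← hρ3] at h2
  have h3 : |ξ| * ρ ^ 2 ≤ 1 := by
    refine le_of_pow_le_pow_left₀ three_ne_zero zero_le_one ?_
    have e : (|ξ| * ρ ^ 2) ^ 3 = |ξ| ^ 3 * (ρ ^ 3) ^ 2 := by ring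
    rw [e, hρ3, inv_pow, ← div_eq_mul_inv, one_pow, div_le_one (by positivity), ← sq_abs ξ]
    have := abs_nonneg ξ
    nlinarith [sq_nonneg (|ξ| ^ 2 - |ξ|), sq_nonneg |ξ|, pow_nonneg this 4]
  have h4 : (A + B * |ξ| + B * ρ⁻¹ ^ 2) * ρ ^ 3 ≤ (A + 2 * B) * ρ := by
    have e : (A + B * |ξ| + B * ρ⁻¹ ^ 2) * ρ ^ 3 =
        (A * ρ ^ 2 + B * (|ξ| * ρ ^ 2) + B) * ρ := by field_simp
    have a1 : A * ρ ^ 2 ≤ A := mul_le_of_le_one_right hA (pow_le_one₀ hρ0.le hρ1)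
    have a2 : B * (|ξ| * ρ ^ 2) ≤ B := mul_le_of_le_one_right hB h3
    rw [e]
    exact mul_le_mul_of_nonneg_right (by linarith) hρ0.le
  calc _ ≤ K * ((A + B * |ξ| + B * ρ⁻¹ ^ 2) * ((S + 8) * ρ ^ 3) + B * ρ * c) := by gcongr
    _ = K * ((S + 8) * ((A + B * |ξ| + B * ρ⁻¹ ^ 2) * ρ ^ 3) + B * ρ * c) := by ring
    _ ≤ K * ((S + 8) * ((A + 2 * B) * ρ) + B * ρ * c) := by gcongr
    _ = _ := by ring

lemma II_GG_real {S K : ℝ} (hS : 0 < S) (hK0 : 0 < K) (hK : KB S K) {F : ℂ → ℝ → ℂ} {A : ℝ}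
    (hA : 0 ≤ A) (hF : ∀ ξ : ℝ, ∀ r ∈ Ioo 0 S, ‖F ξ r‖ ≤ A) (x : ℝ) {s : ℝ} (hs : s ∈ Ioo 0 S) :
    ‖II (fun ξ s => GG S F ξ s) (x, s)‖ ≤ K * A * (S + 8) * π := by
  have h : ∀ ξ : ℝ, ‖GG S F ξ s‖ ≤ K * A * (S + 8) * (1 + ξ ^ 2)⁻¹ := by
    intro ξ
    have i1 : IntegrableOn (fun r : ℝ => Real.exp (-(ξ ^ 2 / 4 * |s - r|))) (Ioo 0 S) :=
      (Continuous.integrableOn_Icc (by fun_prop)).mono_set Ioo_subset_Icc_self
    have h1 : ‖GG S F ξ s‖ ≤ ∫ r in Ioo 0 S, K * A * Real.exp (-(ξ ^ 2 / 4 * |s - r|)) := by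
      refine norm_integral_le_of_norm_le (i1.const_mul _) ?_
      filter_upwards [ae_restrict_mem measurableSet_Ioo] with r hr
      rw [norm_mul]
      calc _ ≤ (K * Real.exp (-(ξ ^ 2 / 4 * |s - r|))) * A :=
            mul_le_mul (kk_real hK0 hK ξ hs hr) (hF ξ r hr) (norm_nonneg _) (by positivity)
        _ = _ := by ring
    rw [integral_const_mul] at h1
    refine h1.trans ?_
    rw [mul_assoc (K * A), ← div_eq_mul_inv]
    exact mul_le_mul_of_nonneg_left (time_integral_le hS ξ s) (by positivity)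
  rw [← integral_univ_inv_one_add_sq, ← integral_const_mul]
  refine norm_integral_le_of_norm_le (integrable_inv_one_add_sq.const_mul _)
    (Eventually.of_forall fun ξ => ?_)
  rw [norm_mul, norm_cexp_I, one_mul]
  exact h ξ

lemma conv_real {φ : ℂ → ℝ → ℂ} {C r : ℝ} (hC : 0 ≤ C) (h : ∀ ξ : ℝ, ‖φ ξ r‖ ≤ C * rw3 ξ)
    (ξ : ℝ) : ‖conv φ φ ξ r‖ ≤ C ^ 2 * ∫ η : ℝ, rw3 η ^ 2 := by
  have i1 := integrable_rw3_sq
  have i2 : Integrable fun η : ℝ => rw3 (ξ - η) ^ 2 := i1.comp_sub_left ξ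
  have h1 : ‖conv φ φ ξ r‖ ≤ ∫ η : ℝ, C ^ 2 / 2 * (rw3 η ^ 2 + rw3 (ξ - η) ^ 2) := by
    refine norm_integral_le_of_norm_le ((i1.add i2).const_mul _) (Eventually.of_forall fun η => ?_)
    have a1 := h η
    have a2 := h (ξ - η)
    push_cast at a2
    have a3 := rw3_pos η
    rw [norm_mul]
    calc _ ≤ (C * rw3 η) * (C * rw3 (ξ - η)) := mul_le_mul a1 a2 (norm_nonneg _) (by positivity)
      _ ≤ _ := by nlinarith [mul_nonneg (sq_nonneg C) (sq_nonneg (rw3 η - rw3 (ξ - η)))]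
  rw [integral_const_mul, integral_add i1 i2,
    integral_sub_left_eq_self (fun η : ℝ => rw3 η ^ 2) volume ξ] at h1
  linarith

theorem solution_gen {S K : ℝ} (hS : 0 < S) (hK0 : 0 < K) (hK : KB S K) {v : ℂ → ℝ → ℂ}
    {V0 M : ℝ} (hV0 : 0 ≤ V0) (hM : M = 2 * V0 * (1 + K2 S K)) (small : 16 * K2 S K * M ≤ 1)
    (rv : Reg S v) (bv : Bd S v V0)
    (dv : ∀ ξ s : ℝ, HasDerivAt (v ξ) (-(ξ : ℂ) ^ 2 * v ξ s) s) {C0 : ℝ} (hC0 : 0 ≤ C0)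
    (hv : ∀ ξ : ℝ, ∀ s ∈ Ioo 0 S, ‖v ξ s‖ ≤ C0 * rw3 ξ) :
    ∃ (U W : ℕ → ℝ × ℝ → ℂ) (V : ℝ × ℝ → ℂ),
      (∀ n : ℕ, ContDiffOn ℝ n (U 0) (univ ×ˢ Ioo 0 S)) ∧
      (∀ j x, ∀ s ∈ Ioo 0 S, HasDerivAt (fun y => U j (y, s)) (U (j + 1) (x, s)) x) ∧
      (∀ j x, ∀ s ∈ Ioo 0 S, HasDerivAt (fun y => W j (y, s)) (W (j + 1) (x, s)) x) ∧
      (∀ x, ∀ s ∈ Ioo 0 S, HasDerivAt (fun t => U 0 (x, t)) (V (x, s)) s) ∧
      (∀ x, ∀ s ∈ Ioo 0 S,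
        HasDerivAt (fun t => V (x, t)) (U 4 (x, s) + U 2 (x, s) + W 2 (x, s)) s) ∧
      (∀ x, ∀ s ∈ Ioo 0 S, W 0 (x, s) = U 0 (x, s) * U 0 (x, s)) ∧
      (∀ x, ∀ s ∈ Ioo 0 S, (U 0 (x, s)).im = 0) ∧
      (∀ j, ∀ s₀ > 0, ∃ C : ℝ, ∀ x, ∀ s ∈ Ico s₀ S, ‖U j (x, s)‖ ≤ C * Real.exp (-(|x| / 2))) ∧
      (∃ C : ℝ, ∀ x, ∀ s ∈ Ioo 0 S, ‖U 0 (x, s) - II (fun ξ s => v ξ s) (x, s)‖ ≤ C) := by
  have hk := K2_pos hS hK0
  have hM0 : 0 ≤ M := by rw [hM]; positivity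
  obtain ⟨φ, rφ, bφ, hφ⟩ := exists_fixed hS hK0 hK hV0 hM small rv bv
  have rF := FF_reg hM0 rv rφ bφ
  have bF := FF_bd hM0 bv bφ
  have hB0 : 0 ≤ 4 * M * M := by positivity
  choose y1 hy1 using fun ξ : ℝ => GG_ode hS hV0 hB0 rF bF (ofReal_mem_strip one_pos ξ)
  set φ0 : ℝ → ℝ → ℂ := fun ξ s => φ ξ s with hφ0
  set cv : ℝ → ℝ → ℂ := fun ξ s => conv φ φ ξ s with hcv
  set φ1 : ℝ → ℝ → ℂ := fun ξ s => -(ξ : ℂ) ^ 2 * v ξ s + y1 ξ s with hφ1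
  set φ2 : ℝ → ℝ → ℂ := fun ξ s =>
    (I * ξ) ^ 4 * φ0 ξ s + (I * ξ) ^ 2 * φ0 ξ s + (I * ξ) ^ 2 * cv ξ s with hφ2
  have n0 : Nice S φ0 := nice_of_bdF hM0 le_rfl rφ bφ.bdF
  have nc : Nice S cv :=
    nice_of_bdF le_rfl hB0 (conv_reg hM0 hM0 rφ rφ bφ bφ) (conv_bound hM0 hM0 bφ bφ)
  have n2 : Nice S φ2 := ((n0.pow_mul 4).add (n0.pow_mul 2)).add (nc.pow_mul 2)
  have d1 : ∀ ξ, ∀ s ∈ Ioo 0 S, HasDerivAt (φ0 ξ) (φ1 ξ s) s := by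
    intro ξ s hs
    refine ((dv ξ s).add (hy1 ξ s hs).1).congr_of_eventuallyEq ?_
    filter_upwards [isOpen_Ioo.mem_nhds hs] with t ht
    exact hφ ξ (ofReal_mem_strip one_pos ξ) t ht
  have d2 : ∀ ξ, ∀ s ∈ Ioo 0 S, HasDerivAt (φ1 ξ) (φ2 ξ s) s := by
    intro ξ s hs
    refine HasDerivAt.congr_deriv
      (((dv ξ s).const_mul (-(ξ : ℂ) ^ 2)).add (hy1 ξ s hs).2) ?_
    have e := hφ ξ (ofReal_mem_strip one_pos ξ) s hs
    simp only [hφ2, hφ0, hcv]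
    rw [e, TT, FF, zz, mul_pow, mul_pow, Complex.I_sq, Complex.I_pow_four]; ring
  have n1 : Nice S φ1 := nice_deriv n0 n2 d1 d2
  set U : ℕ → ℝ × ℝ → ℂ := fun j => II fun ξ s => (I * ξ) ^ j * φ0 ξ s with hU
  set V : ℕ → ℝ × ℝ → ℂ := fun j => II fun ξ s => (I * ξ) ^ j * φ1 ξ s with hV
  set W : ℕ → ℝ × ℝ → ℂ := fun j => II fun ξ s => (I * ξ) ^ j * cv ξ s with hW
  have hpow : ∀ (ψ : ℝ → ℝ → ℂ) (j : ℕ), (fun (ξ s : ℝ) => (I * ξ) ^ 1 * ((I * ξ) ^ j * ψ ξ s)) =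
      fun (ξ s : ℝ) => (I * ξ) ^ (j + 1) * ψ ξ s := by
    intro ψ j; funext ξ s; ring
  have fU : ∀ j, ∀ p : ℝ × ℝ, p.2 ∈ Ioo 0 S → HasFDerivAt (U j) (LL (U (j + 1) p) (V j p)) p := by
    intro j p hp
    have := II_hasFDerivAt (n0.pow_mul j) (n1.pow_mul j)
      (fun ξ s hs => (d1 ξ s hs).const_mul _) hp
    rwa [hpow] at this
  have fV : ∀ j, ∀ p : ℝ × ℝ, p.2 ∈ Ioo 0 S →
      HasFDerivAt (V j) (LL (V (j + 1) p) (U (j + 4) p + U (j + 2) p + W (j + 2) p)) p := by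
    intro j p hp
    have := II_hasFDerivAt (n1.pow_mul j) (n2.pow_mul j)
      (fun ξ s hs => (d2 ξ s hs).const_mul _) hp
    rw [hpow] at this
    have e : (fun (ξ s : ℝ) => (I * ξ) ^ j * φ2 ξ s) = fun (ξ s : ℝ) =>
        ((I * ξ) ^ (j + 4) * φ0 ξ s + (I * ξ) ^ (j + 2) * φ0 ξ s) + (I * ξ) ^ (j + 2) * cv ξ s := by
      funext ξ s; simp only [hφ2]; ring
    rwa [e, II_add ((n0.pow_mul _).add (n0.pow_mul _)) (nc.pow_mul _) hp,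
      II_add (n0.pow_mul _) (n0.pow_mul _) hp] at this
  have xU : ∀ j x, ∀ s ∈ Ioo 0 S, HasDerivAt (fun y => U j (y, s)) (U (j + 1) (x, s)) x :=
    fun j x s hs => hasDerivAt_x (fU j (x, s) hs)
  have xW : ∀ j x, ∀ s ∈ Ioo 0 S, HasDerivAt (fun y => W j (y, s)) (W (j + 1) (x, s)) x := by
    intro j x s hs
    have := II_hasDerivAt_x (nc.pow_mul j) x hs
    rwa [hpow] at this
  have U0 : U 0 = II φ0 := by simp [hU]
  have W0 : ∀ x, ∀ s ∈ Ioo 0 S, W 0 (x, s) = U 0 (x, s) * U 0 (x, s) := by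
    intro x s hs
    have e : W 0 = II cv := by simp [hW]
    rw [e, U0]
    exact II_conv n0 (p := (x, s)) hs
  have spW : ∀ j, ∃ f, SP U f ∧ ∀ x, ∀ s ∈ Ioo 0 S, W j (x, s) = f (x, s) := by
    intro j
    induction j with
    | zero => exact ⟨_, SP.mul 0 0, W0⟩
    | succ j ih =>
      obtain ⟨f, hf, hf2⟩ := ih
      obtain ⟨f', hf', hd⟩ := hf.deriv xU
      refine ⟨f', hf', fun x s hs => (xW j x s hs).unique ?_⟩
      have e : (fun y => W j (y, s)) = fun y => f (y, s) := funext fun y => hf2 y s hs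
      rw [e]; exact hd x s hs
  have hΩ : IsOpen ((univ : Set ℝ) ×ˢ Ioo 0 S) := isOpen_univ.prod isOpen_Ioo
  have smooth : ∀ n : ℕ, ∀ j, ContDiffOn ℝ n (U j) (univ ×ˢ Ioo 0 S) ∧
      ContDiffOn ℝ n (V j) (univ ×ˢ Ioo 0 S) := by
    intro n
    induction n with
    | zero =>
      intro j
      simp only [Nat.cast_zero, contDiffOn_zero]
      exact ⟨fun p hp => (fU j p hp.2).continuousAt.continuousWithinAt,
        fun p hp => (fV j p hp.2).continuousAt.continuousWithinAt⟩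
    | succ n ih =>
      intro j
      refine ⟨contDiffOn_of_LL hΩ (fun p hp => fU j p hp.2) (ih _).1 (ih _).2,
        contDiffOn_of_LL hΩ (fun p hp => fV j p hp.2) (ih _).2 (((ih _).1.add (ih _).1).add ?_)⟩
      obtain ⟨f, hf, hf2⟩ := spW (j + 2)
      exact (hf.contDiffOn fun j => (ih j).1).congr fun p hp => hf2 p.1 p.2 hp.2
  refine ⟨U, W, V 0, fun n => (smooth n 0).1, xU, xW,
    fun x s hs => hasDerivAt_s (fU 0 (x, s) hs), fun x s hs => hasDerivAt_s (fV 0 (x, s) hs), W0,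
    fun x s hs => ?_, fun j s₀ hs₀ => II_decay hM0 rφ bφ j hs₀, ?_⟩
  · rw [U0]; exact II_real rφ (p := (x, s)) hs
  · have nv : Nice S fun ξ s => v ξ s := nice_of_bdF hV0 le_rfl rv bv.bdF
    have rG := GG_reg hS hK0 hK hV0 hB0 rF bF
    have bG : Bd S (GG S (FF v φ)) (K2 S K * (V0 + 4 * M * M)) := by
      intro ζ hζ s hs
      refine (GG_bound hS hK0 hK hV0 hB0 bF hζ hs).trans ?_
      have := inv_one_add_sq_le ζ.re
      have := wt_pos ζ s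
      have : V0 * (1 + ζ.re ^ 2)⁻¹ ≤ V0 := mul_le_of_le_one_right hV0 ‹_›
      gcongr
    have nG : Nice S fun ξ s => GG S (FF v φ) ξ s :=
      nice_of_bdF (by positivity) le_rfl rG bG.bdF
    obtain ⟨C1, hC1, h1⟩ := GG_real_one hS hK0 hK hV0 hB0 bF
    have h2 : ∀ r ∈ Ioo 0 S, ∀ ξ : ℝ, ‖φ ξ r‖ ≤ (C0 + C1) * rw3 ξ := by
      intro r hr ξ
      rw [hφ ξ (ofReal_mem_strip one_pos ξ) r hr, TT, add_mul]
      exact (norm_add_le _ _).trans (add_le_add (hv ξ r hr) (h1 ξ r hr))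
    set J := ∫ η : ℝ, rw3 η ^ 2 with hJ
    have hJ0 : 0 ≤ J := integral_nonneg fun η => sq_nonneg _
    have h3 : ∀ ξ : ℝ, ∀ r ∈ Ioo 0 S, ‖FF v φ ξ r‖ ≤ C0 + (C0 + C1) ^ 2 * J := by
      intro ξ r hr
      refine (norm_add_le _ _).trans (add_le_add ((hv ξ r hr).trans ?_)
        (conv_real (by positivity) (h2 r hr) ξ))
      exact mul_le_of_le_one_right hC0 (rw3_le_one ξ)
    refine ⟨K * (C0 + (C0 + C1) ^ 2 * J) * (S + 8) * π, fun x₀ s hs => ?_⟩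
    have e : U 0 (x₀, s) = II (fun ξ s => v ξ s) (x₀, s) +
        II (fun ξ s => GG S (FF v φ) ξ s) (x₀, s) := by
      rw [← II_add nv nG (p := (x₀, s)) hs, U0]
      unfold II
      congr 1; ext ξ
      simp only [hφ0]
      rw [hφ ξ (ofReal_mem_strip one_pos ξ) s hs, TT]
    rw [e, add_sub_cancel_left]
    exact II_GG_real hS hK0 hK (by positivity) h3 x₀ hs

end Pool.Agent.Lib.MP_de0dde_an
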