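import Pool.Agent.Lib.MP_de0dde_an.Conv

/-!
The solution operator on the Fourier side: bounds, regularity and the differential equation.
-/

namespace Pool.Agent.Lib.MP_de0dde_an

open Complex Filter Topology Set Metric MeasureTheory Pool.Agent.Shared.HoloIntegral
open scoped Real

/-- the solution operator -/
noncomputable def GG (S : ℝ) (F : ℂ → ℝ → ℂ) (ζ : ℂ) (s : ℝ) : ℂ :=
  ∫ r in Ioo 0 S, kk ζ (s - r) * F ζ r

/-- the kernel bound -/
def KB (S K : ℝ) : Prop :=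
  ∀ ζ : ℂ, |ζ.im| ≤ 1 → ∀ τ : ℝ, |τ| ≤ S → ‖kk ζ τ‖ ≤ K * Real.exp (-(|τ| * ζ.re ^ 2 / 2))

lemma integrableOn_inv_sqrt {S : ℝ} (hS : 0 < S) : IntegrableOn (fun r : ℝ => (√r)⁻¹) (Ioo 0 S) := by
  have h := (intervalIntegral.integrableOn_Ioo_rpow_iff (s := -(1 / 2 : ℝ)) hS).mpr (by norm_num)
  refine h.congr_fun (fun r hr => ?_) measurableSet_Ioo
  simp only
  rw [Real.rpow_neg hr.1.le, Real.sqrt_eq_rpow]

lemma wt_kernel (ζ : ℂ) {s r : ℝ} (hs : 0 ≤ s) (hr : 0 ≤ r) :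
    Real.exp (-(|s - r| * ζ.re ^ 2 / 2)) * wt ζ r ≤
      Real.exp 1 * wt ζ s * Real.exp (-(ζ.re ^ 2 / 4 * |s - r|)) := by
  unfold wt
  rw [← Real.exp_add, ← Real.exp_add, ← Real.exp_add]
  apply Real.exp_le_exp.mpr
  have h1 := Real.sq_sqrt hs
  have h2 := Real.sq_sqrt hr
  have h3 := Real.sqrt_nonneg s
  have h4 := Real.sqrt_nonneg r
  have h5 := abs_nonneg ζ.re
  have h6 : |ζ.re| ^ 2 = ζ.re ^ 2 := sq_abs _
  have h7 : 0 ≤ |s - r| * ζ.re ^ 2 := by positivity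
  by_cases h : √s ≤ √r
  · nlinarith
  · push Not at h
    have h8 : (√s - √r) ^ 2 ≤ |s - r| := le_trans (by nlinarith) (le_abs_self _)
    have h9 : (√s - √r) ^ 2 * ζ.re ^ 2 ≤ |s - r| * ζ.re ^ 2 := by gcongr
    nlinarith [sq_nonneg ((√s - √r) * |ζ.re| / 2 - 1)]

lemma time_integral_le {S : ℝ} (hS : 0 < S) (ξ s : ℝ) :
    ∫ r in Ioo 0 S, Real.exp (-(ξ ^ 2 / 4 * |s - r|)) ≤ (S + 8) / (1 + ξ ^ 2) := by
  set J := ∫ r in Ioo 0 S, Real.exp (-(ξ ^ 2 / 4 * |s - r|))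
  have h1 : J ≤ S := by
    have : J ≤ ∫ _ in Ioo 0 S, (1 : ℝ) := by
      refine setIntegral_mono_on ?_ (integrableOn_const (by simp)) measurableSet_Ioo fun r _ => ?_
      · exact (Continuous.integrableOn_Icc (by fun_prop)).mono_set Ioo_subset_Icc_self
      · rw [Real.exp_le_one_iff]
        have : 0 ≤ ξ ^ 2 / 4 * |s - r| := by positivity
        linarith
    simpa [Real.volume_real_Ioo_of_le hS.le] using this
  have h2 : ξ ^ 2 * J ≤ 8 := by
    by_cases h : ξ = 0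
    · simp [h]
    · have ha : 0 < ξ ^ 2 / 4 := by positivity
      have hi : Integrable fun r : ℝ => Real.exp (-(ξ ^ 2 / 4 * |s - r|)) :=
        (integrable_exp_abs ha).comp_sub_left s
      have : J ≤ ∫ r : ℝ, Real.exp (-(ξ ^ 2 / 4 * |s - r|)) :=
        setIntegral_le_integral hi (Eventually.of_forall fun r => (Real.exp_pos _).le)
      rw [integral_sub_left_eq_self (fun r : ℝ => Real.exp (-(ξ ^ 2 / 4 * |r|))),
        integral_exp_abs ha] at this
      calc ξ ^ 2 * J ≤ ξ ^ 2 * (2 / (ξ ^ 2 / 4)) := by gcongr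
        _ = 8 := by field_simp; norm_num
  rw [le_div_iff₀ (by positivity)]
  nlinarith

lemma strip_le {ζ : ℂ} (h : ζ ∈ strip 1) : |ζ.im| ≤ 1 := le_of_lt h

lemma abs_sub_le_S {S s r : ℝ} (hs : s ∈ Ioo 0 S) (hr : r ∈ Ioo 0 S) : |s - r| ≤ S := by
  rw [abs_le]; constructor <;> linarith [hs.1, hs.2, hr.1, hr.2]

/-- the constant in the operator bound -/
noncomputable def K2 (S K : ℝ) : ℝ := K * Real.exp 1 * (S + 8 + ∫ r in Ioo 0 S, (√r)⁻¹)

lemma K2_pos {S K : ℝ} (hS : 0 < S) (hK : 0 < K) : 0 < K2 S K := by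
  have : 0 ≤ ∫ r in Ioo 0 S, (√r)⁻¹ := integral_nonneg fun r => by positivity
  unfold K2; positivity

lemma GG_bound {S K : ℝ} (hS : 0 < S) (hK0 : 0 < K) (hK : KB S K) {F : ℂ → ℝ → ℂ} {A B : ℝ}
    (hA : 0 ≤ A) (hB : 0 ≤ B) (hF : BdF S F A B) {ζ : ℂ} (hζ : ζ ∈ strip 1) {s : ℝ}
    (hs : s ∈ Ioo 0 S) :
    ‖GG S F ζ s‖ ≤ K2 S K * (A * (1 + ζ.re ^ 2)⁻¹ + B) * wt ζ s := by
  set ξ := ζ.re with hξ
  have i1 : IntegrableOn (fun r : ℝ => Real.exp (-(ξ ^ 2 / 4 * |s - r|))) (Ioo 0 S) :=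
    (Continuous.integrableOn_Icc (by fun_prop)).mono_set Ioo_subset_Icc_self
  have i2 := integrableOn_inv_sqrt hS
  have hw := wt_pos ζ s
  have h1 : ‖GG S F ζ s‖ ≤ ∫ r in Ioo 0 S, K * Real.exp 1 * wt ζ s *
      ((A + B * |ξ|) * Real.exp (-(ξ ^ 2 / 4 * |s - r|)) + B * (√r)⁻¹) := by
    refine norm_integral_le_of_norm_le (((i1.const_mul _).add (i2.const_mul _)).const_mul _) ?_
    filter_upwards [ae_restrict_mem measurableSet_Ioo] with r hr
    rw [norm_mul]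
    have b1 := hK ζ (strip_le hζ) (s - r) (abs_sub_le_S hs hr)
    have b2 := hF ζ hζ r hr
    have b3 := wt_kernel ζ hs.1.le hr.1.le
    have b4 : Real.exp (-(ξ ^ 2 / 4 * |s - r|)) ≤ 1 := by
      rw [Real.exp_le_one_iff]
      have : 0 ≤ ξ ^ 2 / 4 * |s - r| := by positivity
      linarith
    calc _ ≤ (K * Real.exp (-(|s - r| * ξ ^ 2 / 2))) * ((A + B * (|ξ| + (√r)⁻¹)) * wt ζ r) :=
          mul_le_mul b1 b2 (norm_nonneg _) (by positivity)
      _ = K * (A + B * (|ξ| + (√r)⁻¹)) * (Real.exp (-(|s - r| * ξ ^ 2 / 2)) * wt ζ r) := by ring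
      _ ≤ K * (A + B * (|ξ| + (√r)⁻¹)) *
          (Real.exp 1 * wt ζ s * Real.exp (-(ξ ^ 2 / 4 * |s - r|))) := by gcongr
      _ = K * Real.exp 1 * wt ζ s * ((A + B * |ξ|) * Real.exp (-(ξ ^ 2 / 4 * |s - r|)) +
          B * (√r)⁻¹ * Real.exp (-(ξ ^ 2 / 4 * |s - r|))) := by ring
      _ ≤ _ := by
          have b5 : B * (√r)⁻¹ * Real.exp (-(ξ ^ 2 / 4 * |s - r|)) ≤ B * (√r)⁻¹ :=
            mul_le_of_le_one_right (by positivity) b4
          exact mul_le_mul_of_nonneg_left (by linarith) (by positivity)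
  rw [integral_const_mul, integral_add (i1.const_mul _) (i2.const_mul _), integral_const_mul,
    integral_const_mul] at h1
  refine h1.trans ?_
  have h2 := time_integral_le hS ξ s
  set c := ∫ r in Ioo 0 S, (√r)⁻¹
  have hc : 0 ≤ c := integral_nonneg fun r => by positivity
  have h3 : |ξ| * (1 + ξ ^ 2)⁻¹ ≤ 1 := by
    rw [← div_eq_mul_inv, div_le_one (by positivity)]
    nlinarith [sq_abs ξ, sq_nonneg (|ξ| - 1), abs_nonneg ξ]
  have h4 : 0 < (1 + ξ ^ 2)⁻¹ := by positivity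
  calc _ ≤ K * Real.exp 1 * wt ζ s * ((A + B * |ξ|) * ((S + 8) / (1 + ξ ^ 2)) + B * c) := by gcongr
    _ = K * Real.exp 1 * wt ζ s * ((S + 8) * (A * (1 + ξ ^ 2)⁻¹) +
        (S + 8) * B * (|ξ| * (1 + ξ ^ 2)⁻¹) + B * c) := by ring
    _ ≤ K * Real.exp 1 * wt ζ s * ((S + 8 + c) * (A * (1 + ξ ^ 2)⁻¹) +
        (S + 8) * B * 1 + B * c) := by
        have b1 : (S + 8) * (A * (1 + ξ ^ 2)⁻¹) ≤ (S + 8 + c) * (A * (1 + ξ ^ 2)⁻¹) :=
          mul_le_mul_of_nonneg_right (by linarith) (by positivity)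
        have b2 : (S + 8) * B * (|ξ| * (1 + ξ ^ 2)⁻¹) ≤ (S + 8) * B * 1 :=
          mul_le_mul_of_nonneg_left h3 (by positivity)
        exact mul_le_mul_of_nonneg_left (by linarith) (by positivity)
    _ = _ := by unfold K2; ring

lemma BdF.dom_time {S : ℝ} {F : ℂ → ℝ → ℂ} {A B : ℝ} (hA : 0 ≤ A) (hB : 0 ≤ B)
    (hF : BdF S F A B) {ζ : ℂ} (hζ : ζ ∈ strip 1) {R : ℝ} (hR : |ζ.re| ≤ R) {r : ℝ}
    (hr : r ∈ Ioo 0 S) : ‖F ζ r‖ ≤ A + B * (R + (√r)⁻¹) := by
  refine (hF ζ hζ r hr).trans ?_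
  have := wt_le_one ζ r
  have := wt_pos ζ r
  calc _ ≤ (A + B * (R + (√r)⁻¹)) * 1 := by
        gcongr
        have := abs_nonneg ζ.re
        have : 0 ≤ R := by linarith
        positivity
    _ = _ := mul_one _

lemma integrable_dom_time {S : ℝ} (hS : 0 < S) (A B R : ℝ) :
    IntegrableOn (fun r : ℝ => A + B * (R + (√r)⁻¹)) (Ioo 0 S) :=
  (integrableOn_const (by simp)).add
    (((integrableOn_const (by simp)).add (integrableOn_inv_sqrt hS)).const_mul _)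

lemma BdF.integrableOn {S : ℝ} (hS : 0 < S) {F : ℂ → ℝ → ℂ} {A B : ℝ} (hA : 0 ≤ A) (hB : 0 ≤ B)
    (rF : Reg S F) (hF : BdF S F A B) {ζ : ℂ} (hζ : ζ ∈ strip 1) :
    IntegrableOn (F ζ) (Ioo 0 S) := by
  refine (integrable_dom_time hS A B |ζ.re|).mono'
    ((rF.cont_time hζ).aestronglyMeasurable measurableSet_Ioo) ?_
  filter_upwards [ae_restrict_mem measurableSet_Ioo] with r hr
  exact hF.dom_time hA hB hζ le_rfl hr

lemma integrableOn_mul_cont {S : ℝ} {f c : ℝ → ℂ} (hf : IntegrableOn f (Ioo 0 S))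
    (hc : Continuous c) : IntegrableOn (fun r => c r * f r) (Ioo 0 S) := by
  have h := (integrableOn_Icc_iff_integrableOn_Ioo (f := f) (a := 0) (b := S)).mpr hf
  exact (h.continuousOn_mul hc.continuousOn isCompact_Icc).mono_set Ioo_subset_Icc_self

lemma continuous_kk_sub (ζ : ℂ) (s : ℝ) : Continuous fun r : ℝ => kk ζ (s - r) :=
  continuous_kk.comp (f := fun r : ℝ => (ζ, s - r)) (by fun_prop)

lemma GG_dom {S K : ℝ} (hK0 : 0 < K) (hK : KB S K) {F : ℂ → ℝ → ℂ} {A B : ℝ}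
    (hA : 0 ≤ A) (hB : 0 ≤ B) (hF : BdF S F A B) {ζ : ℂ} (hζ : ζ ∈ strip 1) {R : ℝ}
    (hR : |ζ.re| ≤ R) {s : ℝ} (hs : s ∈ Ioo 0 S) {r : ℝ} (hr : r ∈ Ioo 0 S) :
    ‖kk ζ (s - r) * F ζ r‖ ≤ K * (A + B * (R + (√r)⁻¹)) := by
  rw [norm_mul]
  have b1 := hK ζ (strip_le hζ) (s - r) (abs_sub_le_S hs hr)
  have b4 : Real.exp (-(|s - r| * ζ.re ^ 2 / 2)) ≤ 1 := by
    rw [Real.exp_le_one_iff]
    have : 0 ≤ |s - r| * ζ.re ^ 2 / 2 := by positivity
    linarith
  have b5 : ‖kk ζ (s - r)‖ ≤ K := b1.trans (mul_le_of_le_one_right hK0.le b4)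
  exact mul_le_mul b5 (hF.dom_time hA hB hζ hR hr) (norm_nonneg _) hK0.le

lemma GG_reg {S K : ℝ} (hS : 0 < S) (hK0 : 0 < K) (hK : KB S K) {F : ℂ → ℝ → ℂ} {A B : ℝ}
    (hA : 0 ≤ A) (hB : 0 ≤ B) (rF : Reg S F) (hF : BdF S F A B) : Reg S (GG S F) := by
  have hm : ∀ ζ ∈ strip 1, ∀ s, AEStronglyMeasurable (fun r => kk ζ (s - r) * F ζ r)
      (volume.restrict (Ioo 0 S)) := fun ζ hζ s =>
    ((continuous_kk_sub ζ s).continuousOn.mul (rF.cont_time hζ)).aestronglyMeasurable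
      measurableSet_Ioo
  refine ⟨fun p hp => ContinuousAt.continuousWithinAt ?_, fun s hs ζ₀ hζ₀ => ?_,
    fun ξ s _ => ?_⟩
  · have hn : ∀ᶠ q in 𝓝 p, q ∈ dom S ∧ |q.1.re| ≤ |p.1.re| + 1 := by
      refine Eventually.and ((isOpen_dom S).mem_nhds hp) ?_
      have hc : Continuous fun q : ℂ × ℝ => |q.1.re| := by fun_prop
      exact (hc.tendsto p).eventually (eventually_le_nhds (by linarith))
    refine continuousAt_of_dominated (F := fun (q : ℂ × ℝ) (r : ℝ) => kk q.1 (q.2 - r) * F q.1 r)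
      (bound := fun r => K * (A + B * (|p.1.re| + 1 + (√r)⁻¹))) ?_ ?_ ?_ ?_
    · filter_upwards [hn] with q hq
      exact hm q.1 hq.1.1 q.2
    · filter_upwards [hn] with q hq
      filter_upwards [ae_restrict_mem measurableSet_Ioo] with r hr
      exact GG_dom hK0 hK hA hB hF hq.1.1 hq.2 hq.1.2 hr
    · exact (integrable_dom_time hS A B _).const_mul _
    · filter_upwards [ae_restrict_mem measurableSet_Ioo] with r hr
      refine ContinuousAt.mul ?_ ?_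
      · exact (continuous_kk.comp (f := fun q : ℂ × ℝ => (q.1, q.2 - r)) (by fun_prop)).continuousAt
      · exact ContinuousAt.comp (f := fun q : ℂ × ℝ => (q.1, r))
          (rF.cont.continuousAt ((isOpen_dom S).mem_nhds ⟨hp.1, hr⟩)) (by fun_prop)
  · set U : Set ℂ := strip 1 ∩ {ζ | |ζ.re| < |ζ₀.re| + 1}
    have hU : IsOpen U := (isOpen_strip 1).inter (isOpen_lt (by fun_prop) continuous_const)
    have h := differentiableOn_integral hU (μ := volume.restrict (Ioo 0 S))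
      (F := fun ζ (r : ℝ) => kk ζ (s - r) * F ζ r)
      (b := fun r => K * (A + B * (|ζ₀.re| + 1 + (√r)⁻¹))) (fun ζ hζ => hm ζ hζ.1 s)
      (by
        filter_upwards [ae_restrict_mem measurableSet_Ioo] with r hr
        exact (diff_kk _).differentiableOn.mul ((rF.holo r hr).mono inter_subset_left))
      (by
        filter_upwards [ae_restrict_mem measurableSet_Ioo] with r hr ζ hζ
        exact GG_dom hK0 hK hA hB hF hζ.1 (le_of_lt hζ.2) hs hr)
      ((integrable_dom_time hS A B _).const_mul _)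
    exact (h.differentiableAt (hU.mem_nhds ⟨hζ₀, by simp⟩)).differentiableWithinAt
  · rw [GG, GG, ← integral_conj]
    refine setIntegral_congr_fun measurableSet_Ioo fun r hr => ?_
    rw [map_mul, conj_kk, rF.symm ξ r hr]

lemma GG_sub {S : ℝ} (hS : 0 < S) {F F' : ℂ → ℝ → ℂ} {A B A' B' : ℝ}
    (hA : 0 ≤ A) (hB : 0 ≤ B) (rF : Reg S F) (hF : BdF S F A B)
    (hA' : 0 ≤ A') (hB' : 0 ≤ B') (rF' : Reg S F') (hF' : BdF S F' A' B') {ζ : ℂ}
    (hζ : ζ ∈ strip 1) (s : ℝ) :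
    GG S F ζ s - GG S F' ζ s = GG S (fun ζ s => F ζ s - F' ζ s) ζ s := by
  unfold GG
  rw [← integral_sub
    (integrableOn_mul_cont (hF.integrableOn hS hA hB rF hζ) (continuous_kk_sub ζ s))
    (integrableOn_mul_cont (hF'.integrableOn hS hA' hB' rF' hζ) (continuous_kk_sub ζ s))]
  congr 1; ext r; ring

lemma hasDerivAt_primitive {S : ℝ} {f : ℝ → ℂ} (hf : IntegrableOn f (Ioo 0 S))
    (hc : ContinuousOn f (Ioo 0 S)) {s : ℝ} (hs : s ∈ Ioo 0 S) :
    HasDerivAt (fun u => ∫ r in (0 : ℝ)..u, f r) (f s) s := by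
  refine intervalIntegral.integral_hasDerivAt_right ?_
    (hc.stronglyMeasurableAtFilter isOpen_Ioo s hs) (hc.continuousAt (isOpen_Ioo.mem_nhds hs))
  rw [intervalIntegrable_iff_integrableOn_Ioo_of_le hs.1.le]
  exact hf.mono_set (Ioo_subset_Ioo_right hs.2.le)

/-- The differential equation satisfied by the Green integral. -/
lemma green_ode {S : ℝ} (z : ℂ) {f : ℝ → ℂ} (hf : IntegrableOn f (Ioo 0 S))
    (hc : ContinuousOn f (Ioo 0 S)) :
    ∃ y1 : ℝ → ℂ, ∀ s ∈ Ioo 0 S,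
      HasDerivAt (fun s => ∫ r in Ioo 0 S, gr z (s - r) * f r) (y1 s) s ∧
      HasDerivAt y1 (z * (∫ r in Ioo 0 S, gr z (s - r) * f r) + f s) s := by
  have cC : Continuous (Ch z) := continuous_iff_continuousAt.mpr fun τ =>
    (hasDerivAt_Ch z τ).continuousAt
  have cS : Continuous (Sh z) := continuous_iff_continuousAt.mpr fun τ =>
    (hasDerivAt_Sh z τ).continuousAt
  have iC := integrableOn_mul_cont hf cC
  have iS := integrableOn_mul_cont hf cS
  set IC : ℝ → ℂ := fun u => ∫ r in (0 : ℝ)..u, Ch z r * f r with hIC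
  set IS : ℝ → ℂ := fun u => ∫ r in (0 : ℝ)..u, Sh z r * f r with hIS
  set JC : ℂ := ∫ r in Ioo 0 S, Ch z r * f r
  set JS : ℂ := ∫ r in Ioo 0 S, Sh z r * f r
  set a : ℂ := (JS - rho z * JC) / 2
  set b : ℂ := (rho z * z * JS - JC) / 2
  have key : ∀ s ∈ Ioo 0 S, ∫ r in Ioo 0 S, gr z (s - r) * f r =
      Sh z s * IC s - Ch z s * IS s + a * Ch z s + b * Sh z s := by
    intro s hs
    have e1 : ∀ r, gr z (s - r) * f r =
        indicator (Iic s) (fun r => Sh z s * (Ch z r * f r) - Ch z s * (Sh z r * f r)) r +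
          ((-(Sh z s + rho z * Ch z s) / 2) * (Ch z r * f r) +
            ((Ch z s + rho z * z * Sh z s) / 2) * (Sh z r * f r)) := by
      intro r
      by_cases h : r ≤ s
      · rw [indicator_of_mem (mem_Iic.mpr h), gr, abs_of_nonneg (by linarith), Sh_sub, Ch_sub]
        ring
      · rw [indicator_of_notMem (by simpa using h), gr, abs_of_neg (by linarith), Sh_neg, Sh_sub,
          Ch_sub]
        ring
    have i1 : IntegrableOn (fun r => Sh z s * (Ch z r * f r) - Ch z s * (Sh z r * f r))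
        (Ioo 0 S) := (iC.const_mul _).sub (iS.const_mul _)
    have e2 : Iic s ∩ Ioo 0 S = Ioc 0 s := by
      ext r; simp only [mem_inter_iff, mem_Iic, mem_Ioo, mem_Ioc]
      constructor
      · rintro ⟨h1, h2, _⟩; exact ⟨h2, h1⟩
      · rintro ⟨h1, h2⟩; exact ⟨h2, h1, by linarith [hs.2]⟩
    have hsub : Ioc 0 s ⊆ Ioo 0 S := by rw [← e2]; exact inter_subset_right
    have i2 : IntegrableOn (fun r => (-(Sh z s + rho z * Ch z s) / 2) * (Ch z r * f r) +
        ((Ch z s + rho z * z * Sh z s) / 2) * (Sh z r * f r)) (Ioo 0 S) :=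
      (iC.const_mul _).add (iS.const_mul _)
    simp_rw [e1]
    rw [integral_add (i1.indicator measurableSet_Iic) i2,
      integral_add (iC.const_mul _) (iS.const_mul _), integral_const_mul, integral_const_mul,
      integral_indicator measurableSet_Iic, Measure.restrict_restrict measurableSet_Iic, e2,
      integral_sub ((iC.mono_set hsub).const_mul _) ((iS.mono_set hsub).const_mul _),
      integral_const_mul, integral_const_mul]
    simp only [hIC, hIS, intervalIntegral.integral_of_le hs.1.le]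
    ring
  refine ⟨fun s => Ch z s * IC s - z * Sh z s * IS s + a * (z * Sh z s) + b * Ch z s,
    fun s hs => ⟨?_, ?_⟩⟩
  · have h1 := hasDerivAt_primitive iC (cC.continuousOn.mul hc) hs
    have h2 := hasDerivAt_primitive iS (cS.continuousOn.mul hc) hs
    have h3 := ((((hasDerivAt_Sh z s).mul h1).sub ((hasDerivAt_Ch z s).mul h2)).add
      ((hasDerivAt_Ch z s).const_mul a)).add ((hasDerivAt_Sh z s).const_mul b)
    refine (HasDerivAt.congr_deriv h3 (by ring)).congr_of_eventuallyEq ?_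
    filter_upwards [isOpen_Ioo.mem_nhds hs] with u hu
    exact key u hu
  · have h1 := hasDerivAt_primitive iC (cC.continuousOn.mul hc) hs
    have h2 := hasDerivAt_primitive iS (cS.continuousOn.mul hc) hs
    have h3 := ((((hasDerivAt_Ch z s).mul h1).sub (((hasDerivAt_Sh z s).const_mul z).mul h2)).add
      (((hasDerivAt_Sh z s).const_mul z).const_mul a)).add ((hasDerivAt_Ch z s).const_mul b)
    refine HasDerivAt.congr_deriv h3 ?_
    rw [key s hs]
    have := Ch_sq_sub z s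
    linear_combination f s * this

lemma GG_ode {S : ℝ} (hS : 0 < S) {F : ℂ → ℝ → ℂ} {A B : ℝ}
    (hA : 0 ≤ A) (hB : 0 ≤ B) (rF : Reg S F) (hF : BdF S F A B) {ζ : ℂ} (hζ : ζ ∈ strip 1) :
    ∃ y1 : ℝ → ℂ, ∀ s ∈ Ioo 0 S, HasDerivAt (GG S F ζ) (y1 s) s ∧
      HasDerivAt y1 (zz ζ * GG S F ζ s - ζ ^ 2 * F ζ s) s := by
  obtain ⟨y1, hy⟩ := green_ode (zz ζ) (hF.integrableOn hS hA hB rF hζ) (rF.cont_time hζ)
  have e : GG S F ζ = fun s => -ζ ^ 2 * ∫ r in Ioo 0 S, gr (zz ζ) (s - r) * F ζ r := by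
    funext s
    rw [GG, ← integral_const_mul]
    congr 1; ext r; rw [kk]; ring
  refine ⟨fun s => -ζ ^ 2 * y1 s, fun s hs => ⟨?_, ?_⟩⟩
  · rw [e]; exact (hy s hs).1.const_mul _
  · refine HasDerivAt.congr_deriv ((hy s hs).2.const_mul (-ζ ^ 2)) ?_
    rw [e]; ring

end Pool.Agent.Lib.MP_de0dde_an
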