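import Pool.Agent.Lib.MP_de0dde_an.Fixed

/-!
Passing from the Fourier side to the physical side.
-/

namespace Pool.Agent.Lib.MP_de0dde_an

open Complex Filter Topology Set Metric MeasureTheory Pool.Agent.Shared.HoloIntegral
open scoped Real

/-- rapidly decaying majorants -/
def Rapid (b : ℝ → ℝ) : Prop := ∀ k : ℕ, Integrable fun ξ : ℝ => (|ξ| + 2) ^ k * b ξ

lemma Rapid.integrable {b : ℝ → ℝ} (h : Rapid b) : Integrable b := by simpa using h 0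

lemma Rapid.add {b c : ℝ → ℝ} (hb : Rapid b) (hc : Rapid c) : Rapid fun ξ => b ξ + c ξ := by
  intro k
  simpa [mul_add] using! (hb k).add (hc k)

lemma Rapid.const_mul {b : ℝ → ℝ} (hb : Rapid b) (a : ℝ) : Rapid fun ξ => a * b ξ := by
  intro k
  refine ((hb k).const_mul a).congr (Eventually.of_forall fun ξ => ?_)
  simp only; ring

lemma Rapid.pow_mul {b : ℝ → ℝ} (hb : Rapid b) (j : ℕ) : Rapid fun ξ => (|ξ| + 2) ^ j * b ξ := by
  intro k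
  refine (hb (k + j)).congr (Eventually.of_forall fun ξ => ?_)
  simp only; ring

lemma rapid_exp {a : ℝ} (ha : 0 < a) : Rapid fun ξ => Real.exp (-(a * |ξ|)) := by
  intro k
  refine ((integrable_exp_abs (a := a / 2) (by linarith)).const_mul
    ((k.factorial : ℝ) / (a / 2) ^ k * Real.exp a)).mono' (by fun_prop) (Eventually.of_forall fun ξ => ?_)
  have h := Real.pow_div_factorial_le_exp (a / 2 * (|ξ| + 2)) (by positivity) k
  have hk : (0 : ℝ) < k.factorial := by exact_mod_cast Nat.factorial_pos k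
  have hp : 0 < (a / 2) ^ k := by positivity
  rw [div_le_iff₀ hk, mul_pow] at h
  have h2 : (|ξ| + 2) ^ k ≤ (k.factorial : ℝ) / (a / 2) ^ k * Real.exp (a / 2 * (|ξ| + 2)) := by
    rw [div_mul_eq_mul_div, le_div_iff₀ hp]; linarith
  rw [Real.norm_eq_abs, abs_of_nonneg (by positivity)]
  calc _ ≤ (k.factorial : ℝ) / (a / 2) ^ k * Real.exp (a / 2 * (|ξ| + 2)) * Real.exp (-(a * |ξ|)) := by
        gcongr
    _ = _ := by
        rw [mul_assoc, mul_assoc, ← Real.exp_add, ← Real.exp_add]; congr 2; ring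

/-- measurable in frequency, with rapidly decaying majorants locally uniformly in time -/
structure Nice (S : ℝ) (ψ : ℝ → ℝ → ℂ) : Prop where
  meas : ∀ s ∈ Ioo 0 S, AEStronglyMeasurable fun ξ : ℝ => ψ ξ s
  bound : ∀ s₀ ∈ Ioo 0 S, ∃ b, Rapid b ∧ ∀ ξ, ∀ s ∈ Ico s₀ S, ‖ψ ξ s‖ ≤ b ξ

lemma Nice.add {S : ℝ} {ψ χ : ℝ → ℝ → ℂ} (h1 : Nice S ψ) (h2 : Nice S χ) :
    Nice S fun ξ s => ψ ξ s + χ ξ s := by
  refine ⟨fun s hs => (h1.meas s hs).add (h2.meas s hs), fun s₀ hs₀ => ?_⟩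
  obtain ⟨b, hb, hb'⟩ := h1.bound s₀ hs₀
  obtain ⟨c, hc, hc'⟩ := h2.bound s₀ hs₀
  exact ⟨_, hb.add hc, fun ξ s hs => (norm_add_le _ _).trans (add_le_add (hb' ξ s hs) (hc' ξ s hs))⟩

lemma norm_Ipow_le (ξ : ℝ) (j : ℕ) : ‖(I * ξ) ^ j‖ ≤ (|ξ| + 2) ^ j := by
  rw [norm_pow, norm_mul, Complex.norm_I, one_mul, Complex.norm_real, Real.norm_eq_abs]
  gcongr; linarith

lemma Nice.pow_mul {S : ℝ} {ψ : ℝ → ℝ → ℂ} (h : Nice S ψ) (j : ℕ) :
    Nice S fun ξ s => (I * ξ) ^ j * ψ ξ s := by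
  refine ⟨fun s hs => AEStronglyMeasurable.mul (by fun_prop) (h.meas s hs), fun s₀ hs₀ => ?_⟩
  obtain ⟨b, hb, hb'⟩ := h.bound s₀ hs₀
  refine ⟨_, hb.pow_mul j, fun ξ s hs => ?_⟩
  rw [norm_mul]
  exact mul_le_mul (norm_Ipow_le ξ j) (hb' ξ s hs) (norm_nonneg _) (by positivity)

lemma norm_cexp_I (ξ x : ℝ) : ‖cexp (I * ξ * x)‖ = 1 := by
  rw [Complex.norm_exp]; simp

lemma Nice.integrable {S : ℝ} {ψ : ℝ → ℝ → ℂ} (h : Nice S ψ) {s : ℝ} (hs : s ∈ Ioo 0 S) (x : ℝ) :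
    Integrable fun ξ : ℝ => cexp (I * ξ * x) * ψ ξ s := by
  obtain ⟨b, hb, hb'⟩ := h.bound s hs
  refine hb.integrable.mono' (AEStronglyMeasurable.mul (by fun_prop) (h.meas s hs))
    (Eventually.of_forall fun ξ => ?_)
  rw [norm_mul, norm_cexp_I, one_mul]
  exact hb' ξ s ⟨le_rfl, hs.2⟩

lemma nice_of_bdF {S : ℝ} {F : ℂ → ℝ → ℂ} {A B : ℝ} (hA : 0 ≤ A) (hB : 0 ≤ B) (rF : Reg S F)
    (hF : BdF S F A B) : Nice S fun ξ s => F ξ s := by
  refine ⟨fun s hs => (rF.cont_line hs).aestronglyMeasurable, fun s₀ hs₀ => ?_⟩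
  have ha : 0 < √s₀ := Real.sqrt_pos.mpr hs₀.1
  refine ⟨_, ((rapid_exp ha).pow_mul 1).const_mul (A + B * (1 + (√s₀)⁻¹)), fun ξ s hs => ?_⟩
  have h1 := hF ξ (ofReal_mem_strip one_pos ξ) s ⟨hs₀.1.trans_le hs.1, hs.2⟩
  have h2 := wt_mono ξ hs.1
  have h3 : wt ξ s₀ = Real.exp (-(√s₀ * |ξ|)) := by simp [wt]
  have h4 : (√s)⁻¹ ≤ (√s₀)⁻¹ := inv_anti₀ ha (Real.sqrt_le_sqrt hs.1)
  have h5 := abs_nonneg ξ
  have h6 : 0 ≤ (√s₀)⁻¹ := by positivity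
  rw [Complex.ofReal_re] at h1
  rw [← h3, ← mul_assoc, pow_one]
  refine h1.trans (mul_le_mul ?_ h2 (wt_pos _ _).le (by positivity))
  have h7 : B * (|ξ| + (√s)⁻¹) ≤ B * ((1 + (√s₀)⁻¹) * (|ξ| + 2)) :=
    mul_le_mul_of_nonneg_left (by nlinarith) hB
  nlinarith

lemma Bd.bdF {S : ℝ} {F : ℂ → ℝ → ℂ} {A : ℝ} (hF : Bd S F A) : BdF S F A 0 := by
  intro ζ hζ s hs
  simpa using hF ζ hζ s hs

lemma landau {S s₀ : ℝ} (hs₀ : 0 < s₀) {y y1 y2 : ℝ → ℂ}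
    (h1 : ∀ s ∈ Ioo 0 S, HasDerivAt y (y1 s) s) (h2 : ∀ s ∈ Ioo 0 S, HasDerivAt y1 (y2 s) s)
    {A B : ℝ} (hA : ∀ s ∈ Ico (s₀ / 2) S, ‖y s‖ ≤ A) (hB : ∀ s ∈ Ico (s₀ / 2) S, ‖y2 s‖ ≤ B)
    {s : ℝ} (hs : s ∈ Ico s₀ S) : ‖y1 s‖ ≤ 4 / s₀ * A + s₀ / 2 * B := by
  set h := s₀ / 2 with hh
  have hh0 : 0 < h := by linarith
  have hsub : Icc (s - h) s ⊆ Ico h S := fun t ht =>
    ⟨by linarith [ht.1, hs.1], by linarith [ht.2, hs.2]⟩
  have hsub2 : Icc (s - h) s ⊆ Ioo 0 S := fun t ht =>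
    ⟨by linarith [(hsub ht).1], (hsub ht).2⟩
  have hs1 : s ∈ Icc (s - h) s := ⟨by linarith, le_rfl⟩
  have hs2 : s - h ∈ Icc (s - h) s := ⟨le_rfl, by linarith⟩
  have hB0 : 0 ≤ B := (norm_nonneg _).trans (hB s (hsub hs1))
  have k1 : ∀ t ∈ Icc (s - h) s, ‖y1 t - y1 s‖ ≤ B * h := by
    intro t ht
    refine ((convex_Icc (s - h) s).norm_image_sub_le_of_norm_hasDerivWithin_le
      (fun u hu => (h2 u (hsub2 hu)).hasDerivWithinAt) (fun u hu => hB u (hsub hu)) hs1 ht).trans ?_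
    refine mul_le_mul_of_nonneg_left ?_ hB0
    rw [Real.norm_eq_abs, abs_le]; constructor <;> linarith [ht.1, ht.2]
  have k2 := (convex_Icc (s - h) s).norm_image_sub_le_of_norm_hasDerivWithin_le
    (f := fun t : ℝ => y t - (t : ℂ) * y1 s) (f' := fun t => y1 t - 1 * y1 s) (C := B * h)
    (fun u hu => ((h1 u (hsub2 hu)).sub
      ((Complex.ofRealCLM.hasDerivAt (x := u)).mul_const (y1 s))).hasDerivWithinAt)
    (fun u hu => by rw [one_mul]; exact k1 u hu) hs2 hs1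
  have e : (h : ℂ) * y1 s = (y s - y (s - h)) -
      (y s - (s : ℂ) * y1 s - (y (s - h) - ((s - h : ℝ) : ℂ) * y1 s)) := by push_cast; ring
  have k3 : ‖(h : ℂ) * y1 s‖ ≤ A + A + B * h * h := by
    rw [e]
    refine (norm_sub_le _ _).trans (add_le_add ((norm_sub_le _ _).trans
      (add_le_add (hA s (hsub hs1)) (hA _ (hsub hs2)))) (k2.trans (le_of_eq ?_)))
    rw [sub_sub_cancel, Real.norm_eq_abs, abs_of_pos hh0]
  rw [norm_mul, Complex.norm_real, Real.norm_eq_abs, abs_of_pos hh0] at k3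
  have e2 : 4 / s₀ * A + h * B = (A + A + B * h * h) / h := by
    rw [hh]; field_simp; ring
  rw [e2, le_div_iff₀ hh0]; linarith

lemma nice_deriv {S : ℝ} {ψ ψ1 ψ2 : ℝ → ℝ → ℂ} (h : Nice S ψ) (h2 : Nice S ψ2)
    (d1 : ∀ ξ, ∀ s ∈ Ioo 0 S, HasDerivAt (ψ ξ) (ψ1 ξ s) s)
    (d2 : ∀ ξ, ∀ s ∈ Ioo 0 S, HasDerivAt (ψ1 ξ) (ψ2 ξ s) s) : Nice S ψ1 := by
  refine ⟨fun s hs => ?_, fun s₀ hs₀ => ?_⟩
  · refine aesm_deriv (𝕜 := ℝ) (F := fun s ξ => ψ ξ s) (x₀ := s) ?_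
      (Eventually.of_forall fun ξ => d1 ξ s hs)
    filter_upwards [isOpen_Ioo.mem_nhds hs] with u hu
    exact h.meas u hu
  · have hh : s₀ / 2 ∈ Ioo 0 S := ⟨by linarith [hs₀.1], by linarith [hs₀.1, hs₀.2]⟩
    obtain ⟨b, hb, hb'⟩ := h.bound _ hh
    obtain ⟨c, hc, hc'⟩ := h2.bound _ hh
    exact ⟨_, (hb.const_mul (4 / s₀)).add (hc.const_mul (s₀ / 2)), fun ξ s hs =>
      landau hs₀.1 (d1 ξ) (d2 ξ) (hb' ξ) (hc' ξ) hs⟩

/-- the inverse Fourier integral, as a function of space and time -/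
noncomputable def II (ψ : ℝ → ℝ → ℂ) (p : ℝ × ℝ) : ℂ := ∫ ξ : ℝ, cexp (I * ξ * p.1) * ψ ξ p.2

lemma II_add {S : ℝ} {ψ χ : ℝ → ℝ → ℂ} (h1 : Nice S ψ) (h2 : Nice S χ) {p : ℝ × ℝ}
    (hp : p.2 ∈ Ioo 0 S) : II (fun ξ s => ψ ξ s + χ ξ s) p = II ψ p + II χ p := by
  unfold II
  rw [← integral_add (h1.integrable hp _) (h2.integrable hp _)]
  congr 1; ext ξ; ring

/-- the linear map `(dx, ds) ↦ a dx + b ds` -/
noncomputable def LL (a b : ℂ) : ℝ × ℝ →L[ℝ] ℂ :=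
  (ContinuousLinearMap.fst ℝ ℝ ℝ).smulRight a + (ContinuousLinearMap.snd ℝ ℝ ℝ).smulRight b

lemma LL_apply (a b : ℂ) (v : ℝ × ℝ) : LL a b v = v.1 * a + v.2 * b := by simp [LL]

lemma norm_LL_le (a b : ℂ) : ‖LL a b‖ ≤ ‖a‖ + ‖b‖ := by
  refine ContinuousLinearMap.opNorm_le_bound _ (by positivity) fun v => ?_
  rw [LL_apply]
  refine (norm_add_le _ _).trans ?_
  rw [norm_mul, norm_mul, Complex.norm_real, Complex.norm_real]
  have h1 := norm_fst_le v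
  have h2 := norm_snd_le v
  nlinarith [norm_nonneg a, norm_nonneg b]

lemma II_hasFDerivAt {S : ℝ} {ψ ψ1 : ℝ → ℝ → ℂ} (h : Nice S ψ) (h1 : Nice S ψ1)
    (d1 : ∀ ξ, ∀ s ∈ Ioo 0 S, HasDerivAt (ψ ξ) (ψ1 ξ s) s) {p : ℝ × ℝ} (hp : p.2 ∈ Ioo 0 S) :
    HasFDerivAt (II ψ) (LL (II (fun ξ s => (I * ξ) ^ 1 * ψ ξ s) p) (II ψ1 p)) p := by
  have hh : p.2 / 2 ∈ Ioo 0 S := ⟨by linarith [hp.1], by linarith [hp.1, hp.2]⟩
  obtain ⟨b, hb, hb'⟩ := (h.pow_mul 1).bound _ hh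
  obtain ⟨c, hc, hc'⟩ := h1.bound _ hh
  have hU : {q : ℝ × ℝ | q.2 ∈ Ioo (p.2 / 2) S} ∈ 𝓝 p :=
    (isOpen_Ioo.preimage continuous_snd).mem_nhds ⟨by linarith [hp.1], hp.2⟩
  have hsub : ∀ q ∈ {q : ℝ × ℝ | q.2 ∈ Ioo (p.2 / 2) S}, q.2 ∈ Ioo 0 S := fun q hq =>
    ⟨hh.1.trans hq.1, hq.2⟩
  have i1 := (h.pow_mul 1).integrable hp p.1
  have i2 := h1.integrable hp p.1
  let A : ℂ →L[ℝ] (ℝ × ℝ →L[ℝ] ℂ) :=
    ContinuousLinearMap.smulRightL ℝ (ℝ × ℝ) ℂ (ContinuousLinearMap.fst ℝ ℝ ℝ)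
  let B : ℂ →L[ℝ] (ℝ × ℝ →L[ℝ] ℂ) :=
    ContinuousLinearMap.smulRightL ℝ (ℝ × ℝ) ℂ (ContinuousLinearMap.snd ℝ ℝ ℝ)
  have hL : ∀ a b, LL a b = A a + B b := fun a b => rfl
  have key := hasFDerivAt_integral_of_dominated_of_fderiv_le (𝕜 := ℝ) (μ := volume)
    (F := fun (q : ℝ × ℝ) (ξ : ℝ) => cexp (I * ξ * q.1) * ψ ξ q.2)
    (F' := fun (q : ℝ × ℝ) (ξ : ℝ) => LL (cexp (I * ξ * q.1) * ((I * ξ) ^ 1 * ψ ξ q.2))
      (cexp (I * ξ * q.1) * ψ1 ξ q.2)) (bound := fun ξ => b ξ + c ξ) hU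
    (by
      filter_upwards [hU] with q hq
      exact (h.integrable (hsub q hq) q.1).aestronglyMeasurable)
    (h.integrable hp p.1)
    (by
      simp_rw [hL]
      exact ((A.integrable_comp i1).add (B.integrable_comp i2)).aestronglyMeasurable)
    (Eventually.of_forall fun ξ q hq => (norm_LL_le _ _).trans (by
      rw [norm_mul, norm_mul (cexp _), norm_cexp_I, one_mul, one_mul]
      exact add_le_add (hb' ξ q.2 ⟨hq.1.le, hq.2⟩) (hc' ξ q.2 ⟨hq.1.le, hq.2⟩)))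
    (hb.add hc).integrable
    (Eventually.of_forall fun ξ q hq => by
      have e1 : HasFDerivAt (fun q : ℝ × ℝ => cexp (I * ξ * q.1)) _ q :=
        ((((Complex.ofRealCLM.hasDerivAt (x := q.1)).const_mul (I * ξ)).cexp).hasFDerivAt.comp q
          hasFDerivAt_fst)
      have e2 : HasFDerivAt (fun q : ℝ × ℝ => ψ ξ q.2) _ q :=
        (d1 ξ q.2 (hsub q hq)).hasFDerivAt.comp q hasFDerivAt_snd
      refine (e1.mul e2).congr_fderiv ?_
      ext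
      · simp [LL_apply]; ring
      · simp [LL_apply])
  refine key.congr_fderiv ?_
  simp_rw [hL]
  rw [integral_add (A.integrable_comp i1) (B.integrable_comp i2), A.integral_comp_comm i1,
    B.integral_comp_comm i2]
  rfl

lemma hasDerivAt_x {f : ℝ × ℝ → ℂ} {a b : ℂ} {x s : ℝ} (h : HasFDerivAt f (LL a b) (x, s)) :
    HasDerivAt (fun y => f (y, s)) a x := by
  have := h.comp_hasDerivAt x ((hasDerivAt_id x).prodMk (hasDerivAt_const x s))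
  simpa [LL_apply] using! this

lemma hasDerivAt_s {f : ℝ × ℝ → ℂ} {a b : ℂ} {x s : ℝ} (h : HasFDerivAt f (LL a b) (x, s)) :
    HasDerivAt (fun t => f (x, t)) b s := by
  have := h.comp_hasDerivAt s ((hasDerivAt_const s x).prodMk (hasDerivAt_id s))
  simpa [LL_apply] using! this

lemma II_hasDerivAt_x {S : ℝ} {ψ : ℝ → ℝ → ℂ} (h : Nice S ψ) (x : ℝ) {s : ℝ} (hs : s ∈ Ioo 0 S) :
    HasDerivAt (fun y => II ψ (y, s)) (II (fun ξ s => (I * ξ) ^ 1 * ψ ξ s) (x, s)) x := by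
  have hn : Nice S fun ξ _ => ψ ξ s := by
    refine ⟨fun _ _ => h.meas s hs, fun _ _ => ?_⟩
    obtain ⟨b, hb, hb'⟩ := h.bound s hs
    exact ⟨b, hb, fun ξ _ _ => hb' ξ s ⟨le_rfl, hs.2⟩⟩
  have h0 : Nice S fun _ _ => 0 :=
    ⟨fun _ _ => aestronglyMeasurable_const, fun _ _ => ⟨fun _ => 0, fun k => by simp, by simp⟩⟩
  have := hasDerivAt_x (II_hasFDerivAt hn h0 (fun ξ t _ => hasDerivAt_const t _) (p := (x, s)) hs)
  exact this

lemma contDiffOn_of_LL {Ω : Set (ℝ × ℝ)} (hΩ : IsOpen Ω) {f a b : ℝ × ℝ → ℂ} {n : ℕ}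
    (h : ∀ p ∈ Ω, HasFDerivAt f (LL (a p) (b p)) p) (ha : ContDiffOn ℝ n a Ω)
    (hb : ContDiffOn ℝ n b Ω) : ContDiffOn ℝ (n + 1 : ℕ) f Ω := by
  push_cast
  rw [contDiffOn_succ_iff_fderiv_of_isOpen hΩ]
  refine ⟨fun p hp => (h p hp).differentiableAt.differentiableWithinAt, by simp, ?_⟩
  refine ContDiffOn.congr (f := fun p => LL (a p) (b p)) ?_ fun p hp => (h p hp).fderiv
  exact (contDiffOn_const.smulRight ha).add (contDiffOn_const.smulRight hb)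

lemma II_conv {S : ℝ} {φ : ℂ → ℝ → ℂ} (h : Nice S fun ξ s => φ ξ s) {p : ℝ × ℝ}
    (hp : p.2 ∈ Ioo 0 S) :
    II (fun ξ s => conv φ φ ξ s) p = II (fun ξ s => φ ξ s) p * II (fun ξ s => φ ξ s) p := by
  have i1 := h.integrable hp p.1
  have := integral_convolution (ContinuousLinearMap.mul ℝ ℂ) i1 i1
  simp only [ContinuousLinearMap.mul_apply'] at this
  unfold II
  rw [← this]
  congr 1; ext ξ
  simp only [conv]
  rw [convolution_def, ← integral_const_mul]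
  congr 1; ext η
  simp only [ContinuousLinearMap.mul_apply']
  push_cast
  rw [show I * ξ * p.1 = I * η * p.1 + I * (ξ - η) * p.1 by ring, Complex.exp_add]; ring

lemma II_real {S : ℝ} {φ : ℂ → ℝ → ℂ} (h : Reg S φ) {p : ℝ × ℝ} (hp : p.2 ∈ Ioo 0 S) :
    (II (fun ξ s => φ ξ s) p).im = 0 := by
  rw [← Complex.conj_eq_iff_im, II, ← integral_conj, ← integral_neg_eq_self]
  congr 1; ext ξ
  rw [map_mul, h.symm (-ξ) _ hp, ← Complex.exp_conj]; simp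

lemma II_decay {S M : ℝ} {φ : ℂ → ℝ → ℂ} (hM : 0 ≤ M) (rφ : Reg S φ) (bφ : Bd S φ M) (j : ℕ)
    {s₀ : ℝ} (hs₀ : 0 < s₀) : ∃ C : ℝ, ∀ x : ℝ, ∀ s ∈ Ico s₀ S,
      ‖II (fun ξ s => (I * ξ) ^ j * φ ξ s) (x, s)‖ ≤ C * Real.exp (-(|x| / 2)) := by
  have hr₀ := (rapid_exp (Real.sqrt_pos.mpr hs₀)) j
  refine ⟨M * ∫ ξ : ℝ, (|ξ| + 2) ^ j * Real.exp (-(√s₀ * |ξ|)), fun x s hs => ?_⟩
  have hs' : s ∈ Ioo 0 S := ⟨hs₀.trans_le hs.1, hs.2⟩
  have ha : 0 < √s := Real.sqrt_pos.mpr hs'.1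
  have hr := (rapid_exp ha) j
  set f : ℂ → ℂ := fun ζ => cexp (I * ζ * x) * ((I * ζ) ^ j * φ ζ s) with hf
  have hfb : ∀ z ∈ strip 1, ‖f z‖ ≤ Real.exp (-(z.im * x)) * ((|z.re| + 1) ^ j * (M * wt z s)) := by
    intro z hz
    rw [hf]; simp only
    rw [norm_mul, norm_mul, Complex.norm_exp, norm_pow, norm_mul, Complex.norm_I, one_mul]
    have e : (I * z * x).re = -(z.im * x) := by simp
    have h1 : ‖z‖ ≤ |z.re| + 1 := (Complex.norm_le_abs_re_add_abs_im z).trans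
      (by linarith [strip_le hz])
    have h2 := bφ z hz s hs'
    rw [e]; gcongr
  obtain ⟨y, hy, hyx⟩ : ∃ y : ℝ, |y| < 1 ∧ y * x = |x| / 2 := by
    by_cases h : 0 ≤ x
    · exact ⟨1 / 2, by rw [abs_of_pos] <;> norm_num, by rw [abs_of_nonneg h]; ring⟩
    · exact ⟨-(1 / 2), by rw [abs_neg, abs_of_pos] <;> norm_num,
        by rw [abs_of_neg (not_le.mp h)]; ring⟩
  have hshift := integral_shift (f := f) one_pos
    (DifferentiableOn.mul (by fun_prop) (DifferentiableOn.mul (by fun_prop) (rφ.holo s hs')))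
    (hr.const_mul (Real.exp |x| * M * Real.exp (√s))) (fun ξ z hz hzξ => (hfb z hz).trans (by
      have h1 : -(z.im * x) ≤ |x| := by
        refine (neg_le_abs _).trans ?_
        rw [abs_mul]; exact mul_le_of_le_one_left (abs_nonneg _) (strip_le hz)
      have h2 : |z.re| ≤ |ξ| + 1 := by linarith [abs_sub_abs_le_abs_sub z.re ξ]
      have h3 : |ξ| - 1 ≤ |z.re| := by
        have := abs_sub_abs_le_abs_sub ξ z.re
        rw [abs_sub_comm] at this; linarith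
      have h4 : wt z s ≤ Real.exp (√s) * Real.exp (-(√s * |ξ|)) := by
        rw [wt, ← Real.exp_add]; apply Real.exp_le_exp.mpr; nlinarith
      have h5 := wt_pos z s
      have h6 : (|z.re| + 1) ^ j ≤ (|ξ| + 2) ^ j :=
        pow_le_pow_left₀ (by positivity) (by linarith) j
      calc _ ≤ Real.exp |x| * ((|ξ| + 2) ^ j * (M * (Real.exp (√s) * Real.exp (-(√s * |ξ|))))) :=
            mul_le_mul (Real.exp_le_exp.mpr h1) (mul_le_mul h6 (mul_le_mul_of_nonneg_left h4 hM)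
              (by positivity) (by positivity)) (by positivity) (by positivity)
        _ = _ := by ring)) hy
  have e : II (fun ξ s => (I * ξ) ^ j * φ ξ s) (x, s) = ∫ ξ : ℝ, f ξ := rfl
  rw [e, ← hshift, mul_comm (M * _), ← mul_assoc, ← integral_const_mul]
  refine norm_integral_le_of_norm_le (hr₀.const_mul _) (Eventually.of_forall fun ξ => ?_)
  refine (hfb _ (by simpa [strip] using hy)).trans ?_
  have h1 : wt (ξ + y * I) s ≤ Real.exp (-(√s₀ * |ξ|)) := by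
    have := wt_mono (ξ + y * I) hs.1
    simpa [wt] using this
  have h5 := wt_pos (ξ + y * I) s
  simp only [add_im, ofReal_im, mul_im, ofReal_re, I_im, mul_one, I_re, mul_zero, add_zero,
    zero_add, add_re, mul_re, sub_zero, hyx]
  have h6 : (|ξ| + 1) ^ j ≤ (|ξ| + 2) ^ j := pow_le_pow_left₀ (by positivity) (by linarith) j
  calc _ ≤ Real.exp (-(|x| / 2)) * ((|ξ| + 2) ^ j * (M * Real.exp (-(√s₀ * |ξ|)))) :=
        mul_le_mul_of_nonneg_left (mul_le_mul h6 (mul_le_mul_of_nonneg_left h1 hM)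
          (by positivity) (by positivity)) (by positivity)
    _ = _ := by ring

end Pool.Agent.Lib.MP_de0dde_an
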