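import Pool.Agent.Lib.MP_de0dde_an.Entire
import Pool.Agent.Shared.HoloIntegral

/-!
An entire Green function for `y'' = z y`, which for `Re z` large is exponentially close to the
decaying Green function `-exp(-√z |τ|) / (2 √z)`.
-/

namespace Pool.Agent.Lib.MP_de0dde_an

open Complex Filter Topology Set Metric MeasureTheory Pool.Agent.Shared.HoloIntegral
open scoped Real

/-- an entire function that is very close to `1/√z` when `Re z` is large -/
noncomputable def rho (z : ℂ) : ℂ :=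
  (2 / √π : ℝ) * ∫ r in Ioc (0 : ℝ) 1, cexp (-z * (r : ℂ) ^ 2)

lemma diff_rho : Differentiable ℂ rho := by
  intro w
  have h := differentiableOn_integral (μ := volume.restrict (Ioc (0 : ℝ) 1))
    (F := fun z (r : ℝ) => cexp (-z * (r : ℂ) ^ 2)) (U := ball 0 (‖w‖ + 1)) isOpen_ball
    (b := fun _ => Real.exp (‖w‖ + 1)) (fun z _ => by fun_prop)
    (Eventually.of_forall fun r => by fun_prop) (by
      filter_upwards [ae_restrict_mem measurableSet_Ioc] with r hr z hz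
      rw [mem_ball_zero_iff] at hz
      refine (Complex.norm_exp_le_exp_norm _).trans (Real.exp_le_exp.mpr ?_)
      rw [norm_mul, norm_neg, norm_pow, Complex.norm_real, Real.norm_eq_abs, abs_of_pos hr.1]
      have : r ^ 2 ≤ 1 := pow_le_one₀ hr.1.le hr.2
      nlinarith [norm_nonneg z, sq_nonneg r])
    (integrable_const _)
  exact (h.differentiableAt (isOpen_ball.mem_nhds (by simp))).const_mul _

lemma conj_rho (z : ℂ) : (starRingEnd ℂ) (rho z) = rho ((starRingEnd ℂ) z) := by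
  rw [rho, rho, map_mul, Complex.conj_ofReal, ← integral_conj]
  congr 2; ext r
  rw [← Complex.exp_conj]; simp

lemma rho_approx {l : ℂ} (hl : 0 < l.re) (hz : 1 ≤ (l ^ 2).re) :
    ‖rho (l ^ 2) - l⁻¹‖ ≤ 2 * Real.exp (-(l ^ 2).re) := by
  set z := l ^ 2 with hzdef
  have hz0 : 0 < z.re := by linarith
  have hl0 : l ≠ 0 := by rintro rfl; simp at hl
  have hpi : 0 < √π := Real.sqrt_pos.mpr Real.pi_pos
  have hpi1 : 1 ≤ √π := Real.one_le_sqrt.mpr (by linarith [Real.pi_gt_three])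
  have hfull := integral_gaussian_complex_Ioi hz0
  have hx : 0 < ((√π : ℝ) / l : ℂ).re := by
    rw [div_eq_mul_inv, Complex.re_ofReal_mul, Complex.inv_re]
    have := Complex.normSq_pos.mpr hl0
    positivity
  have hroot : (π / z : ℂ) ^ (1 / 2 : ℂ) = (√π : ℝ) / l := by
    rw [← Complex.sq_cpow_two_inv hx, div_pow, one_div]
    congr 2
    rw [← Complex.ofReal_pow, Real.sq_sqrt Real.pi_pos.le]
  have hint := integrable_cexp_neg_mul_sq hz0
  have hsplit : ∫ r in Ioi (0 : ℝ), cexp (-z * (r : ℂ) ^ 2) =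
      (∫ r in Ioc (0 : ℝ) 1, cexp (-z * (r : ℂ) ^ 2)) +
        ∫ r in Ioi (1 : ℝ), cexp (-z * (r : ℂ) ^ 2) := by
    rw [← setIntegral_union (Ioc_disjoint_Ioi le_rfl) measurableSet_Ioi hint.integrableOn
      hint.integrableOn, Ioc_union_Ioi_eq_Ioi zero_le_one]
  have e : rho z - l⁻¹ = -((2 / √π : ℝ) * ∫ r in Ioi (1 : ℝ), cexp (-z * (r : ℂ) ^ 2)) := by
    have h2 : (∫ r in Ioc (0 : ℝ) 1, cexp (-z * (r : ℂ) ^ 2)) =
        (√π : ℝ) / l / 2 - ∫ r in Ioi (1 : ℝ), cexp (-z * (r : ℂ) ^ 2) := by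
      rw [← hroot, ← hfull, hsplit]; ring
    have h3 : ((√π : ℝ) : ℂ) ≠ 0 := by exact_mod_cast hpi.ne'
    rw [rho, h2]; push_cast; field_simp; ring
  have htail : ‖∫ r in Ioi (1 : ℝ), cexp (-z * (r : ℂ) ^ 2)‖ ≤ Real.exp (-z.re) := by
    have h1 : ‖∫ r in Ioi (1 : ℝ), cexp (-z * (r : ℂ) ^ 2)‖ ≤
        ∫ r in Ioi (1 : ℝ), Real.exp (-z.re * r) := by
      refine norm_integral_le_of_norm_le (integrableOn_exp_mul_Ioi (by linarith) 1) ?_
      filter_upwards [ae_restrict_mem measurableSet_Ioi] with r hr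
      rw [Complex.norm_exp, ← Complex.ofReal_pow, Complex.re_mul_ofReal, Complex.neg_re]
      apply Real.exp_le_exp.mpr
      have : (1 : ℝ) < r := hr
      have : r ≤ r ^ 2 := by nlinarith
      nlinarith
    rw [integral_exp_mul_Ioi (by linarith), mul_one, neg_div_neg_eq] at h1
    exact h1.trans (div_le_self (Real.exp_pos _).le hz)
  rw [e, norm_neg, norm_mul, Complex.norm_real, Real.norm_eq_abs, abs_of_pos (by positivity)]
  have : 2 / √π ≤ 2 := div_le_self (by norm_num) hpi1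
  gcongr

/-- the Green function -/
noncomputable def gr (z : ℂ) (τ : ℝ) : ℂ := (Sh z |τ| - rho z * Ch z τ) / 2

lemma continuous_gr : Continuous (fun p : ℂ × ℝ => gr p.1 p.2) := by
  have h1 : Continuous (fun p : ℂ × ℝ => Sh p.1 |p.2|) :=
    continuous_Sh.comp (f := fun p : ℂ × ℝ => (p.1, |p.2|)) (by fun_prop)
  have h2 := continuous_Ch
  have h3 : Continuous (fun p : ℂ × ℝ => rho p.1) := diff_rho.continuous.comp continuous_fst
  unfold gr; fun_prop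

lemma diff_gr (τ : ℝ) : Differentiable ℂ (fun z => gr z τ) :=
  ((diff_Sh _).sub (diff_rho.mul (diff_Ch _))).div_const _

lemma conj_gr (z : ℂ) (τ : ℝ) : (starRingEnd ℂ) (gr z τ) = gr ((starRingEnd ℂ) z) τ := by
  simp [gr, conj_Sh, conj_Ch, conj_rho, map_ofNat]

lemma norm_cosh_le (w : ℂ) : ‖cosh w‖ ≤ Real.exp ‖w‖ := by
  rw [Complex.cosh, norm_div]
  have h1 := Complex.norm_exp_le_exp_norm w
  have h2 := Complex.norm_exp_le_exp_norm (-w)
  rw [norm_neg] at h2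
  have h3 := norm_add_le (cexp w) (cexp (-w))
  simp only [Complex.norm_ofNat]
  linarith

lemma gr_bound {l : ℂ} (hl : 0 < l.re) (hz : 1 ≤ (l ^ 2).re) (τ : ℝ) :
    ‖gr (l ^ 2) τ‖ ≤ Real.exp (-(l.re * |τ|)) / (2 * ‖l‖) +
      Real.exp (-(l ^ 2).re) * Real.exp (‖l‖ * |τ|) := by
  have hl0 : l ≠ 0 := by rintro rfl; simp at hl
  have hc : Ch (l ^ 2) τ = cosh (l * (|τ| : ℝ)) := by
    rw [← Ch_eq]
    rcases abs_choice τ with h | h <;> rw [h]
    rw [Ch_neg]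
  have e : gr (l ^ 2) τ = -(cexp (-(l * (|τ| : ℝ))) / (2 * l)) -
      (rho (l ^ 2) - l⁻¹) * cosh (l * (|τ| : ℝ)) / 2 := by
    have hs : Sh (l ^ 2) |τ| = l⁻¹ * sinh (l * (|τ| : ℝ)) := by
      rw [← Sh_eq]; field_simp
    rw [gr, hc, hs, ← Complex.cosh_sub_sinh]; field_simp; ring
  rw [e]
  refine (norm_sub_le _ _).trans (add_le_add ?_ ?_)
  · rw [norm_neg, norm_div, norm_mul, Complex.norm_exp, Complex.neg_re, Complex.re_mul_ofReal]
    simp
  · rw [norm_div, norm_mul]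
    have h1 := rho_approx hl hz
    have h2 := norm_cosh_le (l * (|τ| : ℝ))
    rw [norm_mul, Complex.norm_real, Real.norm_eq_abs, abs_abs] at h2
    simp only [Complex.norm_ofNat]
    have := mul_le_mul h1 h2 (norm_nonneg _) (by positivity)
    linarith

/-- the symbol `ζ^4 - ζ^2` -/
def zz (ζ : ℂ) : ℂ := ζ ^ 4 - ζ ^ 2

/-- the kernel of the solution operator -/
noncomputable def kk (ζ : ℂ) (τ : ℝ) : ℂ := -ζ ^ 2 * gr (zz ζ) τ

lemma continuous_kk : Continuous (fun p : ℂ × ℝ => kk p.1 p.2) := by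
  have h1 : Continuous (fun p : ℂ × ℝ => gr (zz p.1) p.2) :=
    continuous_gr.comp (f := fun p : ℂ × ℝ => (zz p.1, p.2)) (by unfold zz; fun_prop)
  unfold kk; fun_prop

lemma diff_kk (τ : ℝ) : Differentiable ℂ (fun ζ => kk ζ τ) := by
  have h1 : Differentiable ℂ (fun ζ => gr (zz ζ) τ) :=
    (diff_gr τ).comp (by unfold zz; fun_prop)
  unfold kk; fun_prop

lemma conj_kk (ξ τ : ℝ) : (starRingEnd ℂ) (kk ξ τ) = kk ((-ξ : ℝ) : ℂ) τ := by
  have e : zz ((-ξ : ℝ) : ℂ) = (starRingEnd ℂ) (zz ξ) := by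
    simp [zz]; ring
  rw [kk, kk, e, map_mul, conj_gr]; simp

lemma kk_high {S : ℝ} (hS : 0 < S) {ζ : ℂ} (hζ : |ζ.im| ≤ 1) (h1 : 14 ≤ ζ.re ^ 2)
    (h2 : 9 * S ≤ ζ.re ^ 2) {τ : ℝ} (hτ : |τ| ≤ S) :
    ‖kk ζ τ‖ ≤ 4 * Real.exp (-(|τ| * ζ.re ^ 2 / 2)) := by
  obtain ⟨l, hl, hl0⟩ := exists_sq (zz ζ)
  set a := ζ.re ^ 2 with ha
  have hb : ζ.im ^ 2 ≤ 1 := by rw [← sq_abs]; exact pow_le_one₀ (abs_nonneg _) hζ
  have hre : (zz ζ).re = a ^ 2 - 6 * a * ζ.im ^ 2 + ζ.im ^ 4 - a + ζ.im ^ 2 := by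
    simp only [zz, ha, pow_succ, pow_zero, one_mul, Complex.sub_re, Complex.mul_re, Complex.mul_im]
    ring
  have hre2 : a ^ 2 / 2 ≤ (zz ζ).re := by
    rw [hre]; nlinarith [sq_nonneg ζ.im, sq_nonneg (ζ.im ^ 2)]
  have hl2 : (zz ζ).re = l.re ^ 2 - l.im ^ 2 := by
    rw [← hl]; simp [pow_two]
  have hlre : a / 2 ≤ l.re := by
    apply abs_le_of_sq_le_sq' _ hl0 |>.2
    nlinarith [sq_nonneg l.im]
  have hn : ‖ζ‖ ^ 2 ≤ 2 * a := by
    rw [Complex.sq_norm, Complex.normSq_apply]; nlinarith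
  have hnl : ‖l‖ ≤ 3 * a := by
    apply abs_le_of_sq_le_sq' _ (by linarith) |>.2
    have h3 : ‖l‖ ^ 2 ≤ ‖ζ‖ ^ 4 + ‖ζ‖ ^ 2 := by
      rw [← norm_pow, hl, zz, ← norm_pow, ← norm_pow]; exact norm_sub_le _ _
    have h4 : ‖ζ‖ ^ 4 ≤ (2 * a) ^ 2 := by
      rw [show ‖ζ‖ ^ 4 = (‖ζ‖ ^ 2) ^ 2 by ring]; gcongr
    nlinarith
  have hnl2 : a / 2 ≤ ‖l‖ := hlre.trans (Complex.re_le_norm l)
  have hg := gr_bound (l := l) (by linarith) (by rw [hl]; nlinarith) τ
  rw [hl] at hg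
  have hτ0 := abs_nonneg τ
  have t1 : Real.exp (-(l.re * |τ|)) / (2 * ‖l‖) ≤ Real.exp (-(|τ| * a / 2)) / a := by
    gcongr
    · nlinarith
    · linarith
  have t2 : Real.exp (-(zz ζ).re) * Real.exp (‖l‖ * |τ|) ≤ Real.exp (-(|τ| * a / 2)) / a := by
    rw [← Real.exp_add, le_div_iff₀ (by linarith)]
    have h5 : a ≤ Real.exp a := by linarith [Real.add_one_le_exp a]
    calc _ ≤ Real.exp (-(zz ζ).re + ‖l‖ * |τ|) * Real.exp a := by gcongr
      _ = Real.exp (-(zz ζ).re + ‖l‖ * |τ| + a) := by rw [← Real.exp_add]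
      _ ≤ _ := by
        apply Real.exp_le_exp.mpr
        have h6 : ‖l‖ * |τ| ≤ 3 * a * S := by gcongr
        have h7 : |τ| * a ≤ S * a := by gcongr
        nlinarith
  rw [kk, norm_mul, norm_neg, norm_pow]
  calc _ ≤ (2 * a) * (Real.exp (-(|τ| * a / 2)) / a + Real.exp (-(|τ| * a / 2)) / a) := by
        gcongr; exact hg.trans (add_le_add t1 t2)
    _ = _ := by field_simp; ring

theorem kk_bound {S : ℝ} (hS : 0 < S) : ∃ K : ℝ, 0 < K ∧ ∀ ζ : ℂ, |ζ.im| ≤ 1 → ∀ τ : ℝ, |τ| ≤ S →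
    ‖kk ζ τ‖ ≤ K * Real.exp (-(|τ| * ζ.re ^ 2 / 2)) := by
  set R : ℝ := 14 + 9 * S with hR
  have hc : IsCompact (closedBall (0 : ℂ) (R + 1) ×ˢ closedBall (0 : ℝ) S) :=
    (isCompact_closedBall _ _).prod (isCompact_closedBall _ _)
  obtain ⟨C, hC⟩ := hc.exists_bound_of_continuousOn continuous_kk.continuousOn
  refine ⟨4 + |C| * Real.exp (S * R / 2), by positivity, fun ζ hζ τ hτ => ?_⟩
  have hp := Real.exp_pos (-(|τ| * ζ.re ^ 2 / 2))
  by_cases h : R ≤ ζ.re ^ 2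
  · refine (kk_high hS hζ (by linarith) (by linarith) hτ).trans ?_
    gcongr
    have : 0 ≤ |C| * Real.exp (S * R / 2) := by positivity
    linarith
  · push Not at h
    have hb : ζ.im ^ 2 ≤ 1 := by rw [← sq_abs]; exact pow_le_one₀ (abs_nonneg _) hζ
    have hn : ‖ζ‖ ≤ R + 1 := by
      apply abs_le_of_sq_le_sq' _ (by linarith) |>.2
      rw [Complex.sq_norm, Complex.normSq_apply]; nlinarith
    have h1 := hC (ζ, τ) ⟨by simpa using hn, by simpa using hτ⟩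
    have h2 : 1 ≤ Real.exp (S * R / 2) * Real.exp (-(|τ| * ζ.re ^ 2 / 2)) := by
      rw [← Real.exp_add]
      apply Real.one_le_exp
      have : |τ| * ζ.re ^ 2 ≤ S * R := by gcongr
      linarith
    have h3 : C ≤ |C| := le_abs_self C
    have h4 := abs_nonneg C
    simp only at h1
    nlinarith

end Pool.Agent.Lib.MP_de0dde_an
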