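import Pool.Agent.Lib.MP_de0dde_an.Inverse

/-!
The solution in the physical variables `(x, s)`, `s` being the time left before blow-up.
-/

namespace Pool.Agent.Lib.MP_de0dde_an

open Complex Filter Topology Set Metric MeasureTheory Pool.Agent.Shared.HoloIntegral
open scoped Real

/-- finite sums of products of two members of a family -/
inductive SP (U : ℕ → ℝ × ℝ → ℂ) : (ℝ × ℝ → ℂ) → Prop
  | mul (a b : ℕ) : SP U (fun p => U a p * U b p)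
  | add (f g : ℝ × ℝ → ℂ) : SP U f → SP U g → SP U (fun p => f p + g p)

lemma SP.deriv {S : ℝ} {U : ℕ → ℝ × ℝ → ℂ}
    (hU : ∀ j x, ∀ s ∈ Ioo 0 S, HasDerivAt (fun y => U j (y, s)) (U (j + 1) (x, s)) x)
    {f : ℝ × ℝ → ℂ} (hf : SP U f) :
    ∃ f', SP U f' ∧ ∀ x, ∀ s ∈ Ioo 0 S, HasDerivAt (fun y => f (y, s)) (f' (x, s)) x := by
  induction hf with
  | mul a b =>
    exact ⟨_, SP.add _ _ (SP.mul (a + 1) b) (SP.mul a (b + 1)), fun x s hs =>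
      (hU a x s hs).mul (hU b x s hs)⟩
  | add f g _ _ ihf ihg =>
    obtain ⟨f', h1, h2⟩ := ihf
    obtain ⟨g', h3, h4⟩ := ihg
    exact ⟨_, SP.add _ _ h1 h3, fun x s hs => (h2 x s hs).add (h4 x s hs)⟩

lemma SP.contDiffOn {U : ℕ → ℝ × ℝ → ℂ} {Ω : Set (ℝ × ℝ)} {n : ℕ}
    (hU : ∀ j, ContDiffOn ℝ n (U j) Ω) {f : ℝ × ℝ → ℂ} (hf : SP U f) : ContDiffOn ℝ n f Ω := by
  induction hf with
  | mul a b => exact (hU a).mul (hU b)
  | add f g _ _ ihf ihg => exact ihf.add ihg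

lemma II_heat_re {ε : ℝ} (hε : 0 ≤ ε) (X : Finset ℝ) {x₀ : ℝ} (hx : x₀ ∈ X) {s : ℝ} (hs : 0 < s) :
    ε * (√s)⁻¹ ≤ (II (fun ξ s => heat ε X ξ s) (x₀, s)).re := by
  have hb : (-(s : ℂ)).re < 0 := by simpa using hs
  have e1 : ∀ x : ℝ, ∀ ξ : ℝ, cexp (I * ξ * x₀) * cexp (-(I * ξ * x) - s * ξ ^ 2) =
      cexp (-(s : ℂ) * ξ ^ 2 + I * (x₀ - x) * ξ + 0) := by
    intro x ξ; rw [← Complex.exp_add]; congr 1; ring
  have e2 : ∀ x : ℝ, ∫ ξ : ℝ, cexp (-(s : ℂ) * ξ ^ 2 + I * (x₀ - x) * ξ + 0) =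
      ((√(π / s) * Real.exp (-((x₀ - x) ^ 2 / (4 * s))) : ℝ) : ℂ) := by
    intro x
    rw [integral_cexp_quadratic hb, neg_neg]
    have h1 : ((π : ℂ) / s) ^ (1 / 2 : ℂ) = (√(π / s) : ℝ) := by
      rw [Real.sqrt_eq_rpow, Complex.ofReal_cpow (by positivity)]; push_cast; rfl
    have h2 : (s : ℂ) ≠ 0 := by exact_mod_cast hs.ne'
    rw [h1]; push_cast
    congr 2
    rw [mul_pow, Complex.I_sq]; field_simp; ring
  have e3 : II (fun ξ s => heat ε X ξ s) (x₀, s) =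
      ((ε * ∑ x ∈ X, √(π / s) * Real.exp (-((x₀ - x) ^ 2 / (4 * s))) : ℝ) : ℂ) := by
    have : ∀ ξ : ℝ, cexp (I * ξ * x₀) * heat ε X ξ s =
        ε * ∑ x ∈ X, cexp (-(s : ℂ) * ξ ^ 2 + I * (x₀ - x) * ξ + 0) := by
      intro ξ
      rw [heat, mul_left_comm, Finset.mul_sum]
      simp_rw [e1]
    simp only [II]
    simp_rw [this]
    rw [integral_const_mul, integral_finsetSum _ fun x _ => integrable_cexp_quadratic' hb _ _]
    simp_rw [e2]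
    push_cast; rfl
  rw [e3, Complex.ofReal_re]
  refine mul_le_mul_of_nonneg_left ?_ hε
  refine le_trans ?_ (Finset.single_le_sum
    (f := fun x => √(π / s) * Real.exp (-((x₀ - x) ^ 2 / (4 * s)))) (fun x _ => by positivity) hx)
  simp only [sub_self]
  rw [← Real.sqrt_inv]
  have : s⁻¹ ≤ π / s := by
    rw [inv_eq_one_div]; gcongr; linarith [Real.pi_gt_three]
  simpa using Real.sqrt_le_sqrt this

lemma II_GG_bound {G : ℝ → ℝ → ℂ} {k A B s : ℝ} (hs : 0 < s) (hk : 0 ≤ k) (hA : 0 ≤ A)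
    (h : ∀ ξ : ℝ, ‖G ξ s‖ ≤ k * (A * (1 + ξ ^ 2)⁻¹ + B) * wt ξ s) (x : ℝ) :
    ‖II G (x, s)‖ ≤ k * A * π + 2 * k * B * (√s)⁻¹ := by
  have ha : 0 < √s := Real.sqrt_pos.mpr hs
  have i1 := integrable_inv_one_add_sq.const_mul (k * A)
  have i2 := (integrable_exp_abs ha).const_mul (k * B)
  have h1 : ‖II G (x, s)‖ ≤ ∫ ξ : ℝ, k * A * (1 + ξ ^ 2)⁻¹ + k * B * Real.exp (-(√s * |ξ|)) := by
    refine norm_integral_le_of_norm_le (i1.add i2) (Eventually.of_forall fun ξ => ?_)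
    rw [norm_mul, norm_cexp_I, one_mul]
    refine (h ξ).trans ?_
    have e : wt ξ s = Real.exp (-(√s * |ξ|)) := by simp [wt]
    have h2 : k * A * (1 + ξ ^ 2)⁻¹ * wt ξ s ≤ k * A * (1 + ξ ^ 2)⁻¹ :=
      mul_le_of_le_one_right (by positivity) (wt_le_one _ _)
    rw [← e]; linarith
  rw [integral_add i1 i2, integral_const_mul, integral_const_mul, integral_univ_inv_one_add_sq,
    integral_exp_abs ha] at h1
  refine h1.trans (le_of_eq ?_); ring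

theorem solution {S : ℝ} (hS : 0 < S) (X : Finset ℝ) :
    ∃ (U W : ℕ → ℝ × ℝ → ℂ) (V : ℝ × ℝ → ℂ),
      (∀ n : ℕ, ContDiffOn ℝ n (U 0) (univ ×ˢ Ioo 0 S)) ∧
      (∀ j x, ∀ s ∈ Ioo 0 S, HasDerivAt (fun y => U j (y, s)) (U (j + 1) (x, s)) x) ∧
      (∀ j x, ∀ s ∈ Ioo 0 S, HasDerivAt (fun y => W j (y, s)) (W (j + 1) (x, s)) x) ∧
      (∀ x, ∀ s ∈ Ioo 0 S, HasDerivAt (fun t => U 0 (x, t)) (V (x, s)) s) ∧
      (∀ x, ∀ s ∈ Ioo 0 S,
        HasDerivAt (fun t => V (x, t)) (U 4 (x, s) + U 2 (x, s) + W 2 (x, s)) s) ∧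
      (∀ x, ∀ s ∈ Ioo 0 S, W 0 (x, s) = U 0 (x, s) * U 0 (x, s)) ∧
      (∀ x, ∀ s ∈ Ioo 0 S, (U 0 (x, s)).im = 0) ∧
      (∀ j, ∀ s₀ > 0, ∃ C : ℝ, ∀ x, ∀ s ∈ Ico s₀ S, ‖U j (x, s)‖ ≤ C * Real.exp (-(|x| / 2))) ∧
      (∃ c > 0, ∃ C : ℝ, ∀ x₀ ∈ X, ∀ s ∈ Ioo 0 S, c * (√s)⁻¹ - C ≤ (U 0 (x₀, s)).re) := by
  obtain ⟨K, hK0, hK⟩ := kk_bound hS
  have hk := K2_pos hS hK0
  set k := K2 S K with hkdef
  set K0 : ℝ := ∑ x ∈ X, Real.exp (|x| + S + 1) with hK0def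
  have hK00 : 0 ≤ K0 := Finset.sum_nonneg fun x _ => (Real.exp_pos _).le
  set D : ℝ := 2 * K0 * (1 + k) with hD
  have hD0 : 0 ≤ D := by positivity
  set ε : ℝ := (16 * k * (D + 1) ^ 2)⁻¹ with hε
  have hε0 : 0 < ε := by positivity
  have hεe : ε * (16 * k * (D + 1) ^ 2) = 1 := inv_mul_cancel₀ (by positivity)
  set M : ℝ := ε * D with hM
  have hM0 : 0 ≤ M := by positivity
  have hV0 : 0 ≤ ε * K0 := by positivity
  have small : 16 * k * M ≤ 1 := by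
    have : 16 * k * ε * D ≤ 16 * k * ε * (D + 1) ^ 2 :=
      mul_le_mul_of_nonneg_left (by nlinarith) (by positivity)
    nlinarith
  have small2 : 2 * k * (4 * M * M) ≤ ε / 2 := by
    have h1 : 16 * k * ε * D ^ 2 ≤ 16 * k * ε * (D + 1) ^ 2 :=
      mul_le_mul_of_nonneg_left (by nlinarith) (by positivity)
    have h2 : 16 * k * ε * D ^ 2 ≤ 1 := by nlinarith
    have h3 := mul_le_mul_of_nonneg_left h2 hε0.le
    rw [hM]; nlinarith
  have rv := heat_reg S ε X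
  have bv : Bd S (heat ε X) (ε * K0) := heat_bd S hε0.le X
  obtain ⟨φ, rφ, bφ, hφ⟩ := exists_fixed hS hK0 hK hV0 (M := M) (by rw [hM, hD]; ring) small rv bv
  have rF := FF_reg hM0 rv rφ bφ
  have bF := FF_bd hM0 bv bφ
  have hB0 : 0 ≤ 4 * M * M := by positivity
  choose y1 hy1 using fun ξ : ℝ => GG_ode hS hV0 hB0 rF bF (ofReal_mem_strip one_pos ξ)
  set φ0 : ℝ → ℝ → ℂ := fun ξ s => φ ξ s with hφ0
  set cv : ℝ → ℝ → ℂ := fun ξ s => conv φ φ ξ s with hcv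
  set φ1 : ℝ → ℝ → ℂ := fun ξ s => -(ξ : ℂ) ^ 2 * heat ε X ξ s + y1 ξ s with hφ1
  set φ2 : ℝ → ℝ → ℂ := fun ξ s =>
    (I * ξ) ^ 4 * φ0 ξ s + (I * ξ) ^ 2 * φ0 ξ s + (I * ξ) ^ 2 * cv ξ s with hφ2
  have n0 : Nice S φ0 := nice_of_bdF hM0 le_rfl rφ bφ.bdF
  have nc : Nice S cv :=
    nice_of_bdF le_rfl hB0 (conv_reg hM0 hM0 rφ rφ bφ bφ) (conv_bound hM0 hM0 bφ bφ)
  have n2 : Nice S φ2 := ((n0.pow_mul 4).add (n0.pow_mul 2)).add (nc.pow_mul 2)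
  have d1 : ∀ ξ, ∀ s ∈ Ioo 0 S, HasDerivAt (φ0 ξ) (φ1 ξ s) s := by
    intro ξ s hs
    refine ((heat_hasDerivAt ε X ξ s).add (hy1 ξ s hs).1).congr_of_eventuallyEq ?_
    filter_upwards [isOpen_Ioo.mem_nhds hs] with t ht
    exact hφ ξ (ofReal_mem_strip one_pos ξ) t ht
  have d2 : ∀ ξ, ∀ s ∈ Ioo 0 S, HasDerivAt (φ1 ξ) (φ2 ξ s) s := by
    intro ξ s hs
    refine HasDerivAt.congr_deriv
      (((heat_hasDerivAt ε X ξ s).const_mul (-(ξ : ℂ) ^ 2)).add (hy1 ξ s hs).2) ?_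
    have e := hφ ξ (ofReal_mem_strip one_pos ξ) s hs
    simp only [hφ2, hφ0, hcv]
    rw [e, TT, FF, zz, mul_pow, mul_pow, Complex.I_sq, Complex.I_pow_four]; ring
  have n1 : Nice S φ1 := nice_deriv n0 n2 d1 d2
  set U : ℕ → ℝ × ℝ → ℂ := fun j => II fun ξ s => (I * ξ) ^ j * φ0 ξ s with hU
  set V : ℕ → ℝ × ℝ → ℂ := fun j => II fun ξ s => (I * ξ) ^ j * φ1 ξ s with hV
  set W : ℕ → ℝ × ℝ → ℂ := fun j => II fun ξ s => (I * ξ) ^ j * cv ξ s with hW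
  have hpow : ∀ (ψ : ℝ → ℝ → ℂ) (j : ℕ), (fun (ξ s : ℝ) => (I * ξ) ^ 1 * ((I * ξ) ^ j * ψ ξ s)) =
      fun (ξ s : ℝ) => (I * ξ) ^ (j + 1) * ψ ξ s := by
    intro ψ j; funext ξ s; ring
  have fU : ∀ j, ∀ p : ℝ × ℝ, p.2 ∈ Ioo 0 S → HasFDerivAt (U j) (LL (U (j + 1) p) (V j p)) p := by
    intro j p hp
    have := II_hasFDerivAt (n0.pow_mul j) (n1.pow_mul j)
      (fun ξ s hs => (d1 ξ s hs).const_mul _) hp
    rwa [hpow] at this
  have fV : ∀ j, ∀ p : ℝ × ℝ, p.2 ∈ Ioo 0 S →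
      HasFDerivAt (V j) (LL (V (j + 1) p) (U (j + 4) p + U (j + 2) p + W (j + 2) p)) p := by
    intro j p hp
    have := II_hasFDerivAt (n1.pow_mul j) (n2.pow_mul j)
      (fun ξ s hs => (d2 ξ s hs).const_mul _) hp
    rw [hpow] at this
    have e : (fun (ξ s : ℝ) => (I * ξ) ^ j * φ2 ξ s) = fun (ξ s : ℝ) =>
        ((I * ξ) ^ (j + 4) * φ0 ξ s + (I * ξ) ^ (j + 2) * φ0 ξ s) + (I * ξ) ^ (j + 2) * cv ξ s := by
      funext ξ s; simp only [hφ2]; ring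
    rwa [e, II_add ((n0.pow_mul _).add (n0.pow_mul _)) (nc.pow_mul _) hp,
      II_add (n0.pow_mul _) (n0.pow_mul _) hp] at this
  have xU : ∀ j x, ∀ s ∈ Ioo 0 S, HasDerivAt (fun y => U j (y, s)) (U (j + 1) (x, s)) x :=
    fun j x s hs => hasDerivAt_x (fU j (x, s) hs)
  have xW : ∀ j x, ∀ s ∈ Ioo 0 S, HasDerivAt (fun y => W j (y, s)) (W (j + 1) (x, s)) x := by
    intro j x s hs
    have := II_hasDerivAt_x (nc.pow_mul j) x hs
    rwa [hpow] at this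
  have U0 : U 0 = II φ0 := by simp [hU]
  have W0 : ∀ x, ∀ s ∈ Ioo 0 S, W 0 (x, s) = U 0 (x, s) * U 0 (x, s) := by
    intro x s hs
    have e : W 0 = II cv := by simp [hW]
    rw [e, U0]
    exact II_conv n0 (p := (x, s)) hs
  have spW : ∀ j, ∃ f, SP U f ∧ ∀ x, ∀ s ∈ Ioo 0 S, W j (x, s) = f (x, s) := by
    intro j
    induction j with
    | zero => exact ⟨_, SP.mul 0 0, W0⟩
    | succ j ih =>
      obtain ⟨f, hf, hf2⟩ := ih
      obtain ⟨f', hf', hd⟩ := hf.deriv xU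
      refine ⟨f', hf', fun x s hs => (xW j x s hs).unique ?_⟩
      have e : (fun y => W j (y, s)) = fun y => f (y, s) := funext fun y => hf2 y s hs
      rw [e]; exact hd x s hs
  have hΩ : IsOpen ((univ : Set ℝ) ×ˢ Ioo 0 S) := isOpen_univ.prod isOpen_Ioo
  have smooth : ∀ n : ℕ, ∀ j, ContDiffOn ℝ n (U j) (univ ×ˢ Ioo 0 S) ∧
      ContDiffOn ℝ n (V j) (univ ×ˢ Ioo 0 S) := by
    intro n
    induction n with
    | zero =>
      intro j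
      simp only [Nat.cast_zero, contDiffOn_zero]
      exact ⟨fun p hp => (fU j p hp.2).continuousAt.continuousWithinAt,
        fun p hp => (fV j p hp.2).continuousAt.continuousWithinAt⟩
    | succ n ih =>
      intro j
      refine ⟨contDiffOn_of_LL hΩ (fun p hp => fU j p hp.2) (ih _).1 (ih _).2,
        contDiffOn_of_LL hΩ (fun p hp => fV j p hp.2) (ih _).2 (((ih _).1.add (ih _).1).add ?_)⟩
      obtain ⟨f, hf, hf2⟩ := spW (j + 2)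
      exact (hf.contDiffOn fun j => (ih j).1).congr fun p hp => hf2 p.1 p.2 hp.2
  refine ⟨U, W, V 0, fun n => (smooth n 0).1, xU, xW,
    fun x s hs => hasDerivAt_s (fU 0 (x, s) hs), fun x s hs => hasDerivAt_s (fV 0 (x, s) hs), W0,
    fun x s hs => ?_, fun j s₀ hs₀ => II_decay hM0 rφ bφ j hs₀,
    ε / 2, by positivity, k * (ε * K0) * π, fun x₀ hx s hs => ?_⟩
  · rw [U0]; exact II_real rφ (p := (x, s)) hs
  · have nv : Nice S fun ξ s => heat ε X ξ s := nice_of_bdF hV0 le_rfl rv bv.bdF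
    have rG := GG_reg hS hK0 hK hV0 hB0 rF bF
    have bG : Bd S (GG S (FF (heat ε X) φ)) (k * (ε * K0 + 4 * M * M)) := by
      intro ζ hζ s hs
      refine (GG_bound hS hK0 hK hV0 hB0 bF hζ hs).trans ?_
      have := inv_one_add_sq_le ζ.re
      have := wt_pos ζ s
      have : ε * K0 * (1 + ζ.re ^ 2)⁻¹ ≤ ε * K0 := mul_le_of_le_one_right hV0 ‹_›
      gcongr
    have nG : Nice S fun ξ s => GG S (FF (heat ε X) φ) ξ s :=
      nice_of_bdF (by positivity) le_rfl rG bG.bdF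
    have e : U 0 (x₀, s) = II (fun ξ s => heat ε X ξ s) (x₀, s) +
        II (fun ξ s => GG S (FF (heat ε X) φ) ξ s) (x₀, s) := by
      rw [← II_add nv nG (p := (x₀, s)) hs, U0]
      unfold II
      congr 1; ext ξ
      simp only [hφ0]
      rw [hφ ξ (ofReal_mem_strip one_pos ξ) s hs, TT]
    have h1 := II_heat_re hε0.le X hx hs.1
    have h2 := II_GG_bound (G := fun ξ s => GG S (FF (heat ε X) φ) ξ s) hs.1 hk.le hV0
      (fun ξ => by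
        simpa using GG_bound hS hK0 hK hV0 hB0 bF (ofReal_mem_strip one_pos ξ) hs) x₀
    have h3 := (abs_le.mp ((Complex.abs_re_le_norm _).trans h2)).1
    have h4 : 0 ≤ (√s)⁻¹ := by positivity
    have h5 := mul_le_mul_of_nonneg_right small2 h4
    rw [e, Complex.add_re]
    linarith

end Pool.Agent.Lib.MP_de0dde_an
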